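import Pool.Agent.H33.SHV.Chw

/-!
# No visible chain labels in the sheared zooms

`ChV θ c r K a w x P`: chain labels of the coordinates `c 0, …, c r`, visible up to `1 - x`.
`upr_chv`: it is a universal property. `zpr_chv`: if there are no chain labels in the class, and the
coordinates are not sheared, there are no visible ones in the sheared zooms.
-/

set_option autoImplicit false

namespace Pool.SHE33

open Finset Real MvPolynomial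
open Pool.Agent.H49.Ent Pool.Agent.H32.Dense Pool.STK Pool.KA Pool.KSAT Pool.K2S Pool.PB Pool.S6C
open Pool.GEN Pool.ZCL Pool.TOP Pool.ZLC Pool.ZFW Pool.CHT Pool.ZCO Pool.ONE

variable {m n J : ℕ} {κ : Type}

/-- **Visible chain labels.** -/
def ChV (θ : ℝ) (c : ℕ → Fin n) (r K : ℕ) (a w x P : ℝ) : Stat n := fun J F A =>
  ∃ (a₀ w₀ : ℕ) (g : ℕ → ℕ), w₀ ≤ a₀ ∧ a₀ ≤ J ∧ a₀ ≤ ⌊a * J⌋₊ ∧ w₀ ≤ ⌊w * J⌋₊ ∧
    ⌊P * J⌋₊ + a₀ ≤ g r + ⌊a * J⌋₊ ∧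
    (∀ i < r + 1, g i ≤ J ∧ ((lipE θ K ⌊w * J⌋₊ J + g i : ℕ) : ℝ) ≤ (1 - x) * J) ∧
    ChN F c (r + 1) (fun _ => K) a₀ w₀ (lipE θ K ⌊w * J⌋₊ J) g A

/-- **Visible chain labels are a universal property.** -/
theorem upr_chv (θ : ℝ) (c : ℕ → Fin n) (r K : ℕ) (a w x P : ℝ) :
    UPr (ChV θ c r K a w x P) := by
  classical
  refine ⟨fun J => (Fin (r + 3) → Fin (J + 1)), fun J => inferInstance, fun J g F A =>
    (gor (r + 3) J g (r + 2) ≤ gor (r + 3) J g (r + 1) ∧ gor (r + 3) J g (r + 1) ≤ ⌊a * J⌋₊ ∧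
      gor (r + 3) J g (r + 2) ≤ ⌊w * J⌋₊ ∧
      ⌊P * J⌋₊ + gor (r + 3) J g (r + 1) ≤ gor (r + 3) J g r + ⌊a * J⌋₊ ∧
      (∀ i < r + 1, ((lipE θ K ⌊w * J⌋₊ J + gor (r + 3) J g i : ℕ) : ℝ) ≤ (1 - x) * J)) ∧
      ChN F c (r + 1) (fun _ => K) (gor (r + 3) J g (r + 1)) (gor (r + 3) J g (r + 2))
        (lipE θ K ⌊w * J⌋₊ J) (gor (r + 3) J g) A, ?_, ?_, ?_⟩
  · have p0 : ∀ J : ℕ, (0 : ℝ) ≤ (J : ℝ) + 1 := fun J => by positivity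
    have h1 : SubE (fun J => ((J : ℝ) + 1) ^ (r + 3)) := SubE.lin.pow p0 (r + 3)
    intro e he
    obtain ⟨J₀, hJ₀⟩ := h1 e he
    refine ⟨J₀, fun J hJ => le_trans (le_of_eq ?_) (hJ₀ J hJ)⟩
    rw [Fintype.card_fun, Fintype.card_fin, Fintype.card_fin]
    push_cast
    ring
  · intro J g
    exact gpr_const (gpr_che c (r + 1) (fun _ => K) _ _ _ (gor (r + 3) J g))
  · intro J F A
    constructor
    · rintro ⟨a₀, w₀, g, h1, h2, h3, h4, h5, h6, h7⟩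
      obtain ⟨G, hG⟩ : ∃ G : ℕ → ℕ, G = fun i => if i < r + 1 then g i else if i = r + 1 then a₀
        else w₀ := ⟨_, rfl⟩
      have hGJ : ∀ i, G i ≤ J := by
        intro i
        rw [hG]
        simp only
        split_ifs with k1 k2
        · exact (h6 i k1).1
        · exact h2
        · exact h1.trans h2
      have hgg : ∀ i < r + 3, gor (r + 3) J (fun i : Fin (r + 3) =>
          (⟨min (G i) J, by omega⟩ : Fin (J + 1))) i = G i := by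
        intro i hi
        unfold gor
        rw [dif_pos hi]
        exact min_eq_left (hGJ i)
      have g1 : G (r + 1) = a₀ := by
        rw [hG]
        simp
      have g2 : G (r + 2) = w₀ := by
        rw [hG]
        simp
      have g3 : ∀ i < r + 1, G i = g i := by
        intro i hi
        rw [hG]
        simp only
        rw [if_pos hi]
      refine ⟨fun i => ⟨min (G i) J, by omega⟩, ?_⟩
      beta_reduce
      rw [hgg (r + 1) (by omega), hgg (r + 2) (by omega), hgg r (by omega), g1, g2,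
        g3 r (by omega)]
      refine ⟨⟨h1, h3, h4, h5, fun i hi => ?_⟩, ?_⟩
      · rw [hgg i (by omega), g3 i hi]
        exact (h6 i hi).2
      · exact Pool.LBN.chn_congr h7 (fun _ _ => rfl) (fun _ _ => le_rfl)
          (fun i hi => by rw [hgg i (by omega), g3 i hi])
    · rintro ⟨g, ⟨h1, h2, h3, h4, h5⟩, h6⟩
      have hle : ∀ i, gor (r + 3) J g i ≤ J := by
        intro i
        unfold gor
        split_ifs with hi
        · have := (g ⟨i, hi⟩).2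
          omega
        · exact Nat.zero_le _
      exact ⟨_, _, _, h1, hle _, h2, h3, h4, fun i hi => ⟨hle i, h5 i hi⟩, h6⟩

theorem ChV.hered (θ : ℝ) (c : ℕ → Fin n) (r K : ℕ) (a w x P : ℝ) (J : ℕ) (F : Fam n J) :
    Hered (ChV θ c r K a w x P J F) := by
  rintro A B hB ⟨a₀, w₀, g, h1, h2, h3, h4, h5, h6, h7⟩
  exact ⟨a₀, w₀, g, h1, h2, h3, h4, h5, h6, ChN.hered F _ _ _ _ _ _ _ _ _ hB h7⟩

/-- **No visible chain labels of coordinates which are not sheared in the sheared zooms.** -/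
theorem zpr_chv {S : PCl m} {C₀ : ℝ} (htm : TmC S C₀) {w₁ : ℝ}
    (hw0 : 0 < w₁) (hw1 : w₁ < 1) {p q : Fin m} {hu : p ∉ ({q} : Finset (Fin m))}
    {ch : ℕ → Fin m} {d K : ℕ} (hinj : Set.InjOn ch (Set.Iio (d + 1)))
    (hnq : ∀ i < d + 1, ch i ≠ q) {θ : ℝ} (hθ : θ ≠ 0)
    {a w az wz x P Pz : ℝ} (ha : w₁ + az * (1 - w₁) < a) (hw : w₁ + wz * (1 - w₁) < w)
    (haz0 : 0 ≤ az) (hwz0 : 0 ≤ wz) (hx : 0 < x) (hP0 : 0 ≤ P) (hPz : 0 ≤ Pz)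
    (hP : P < w₁ + Pz * (1 - w₁))
    (hb : ∀ K' : ℕ, Bas S (fun J F A => ¬ Cht θ ((List.range d).map ch) (ch d) K' ⌊a * J⌋₊
      ⌊w * J⌋₊ ⌊P * J⌋₊ J F A)) :
    ∃ x₀ : ℝ, 0 < x₀ ∧ ∀ Ψ : ∀ (J : ℕ) (F : Fam m J) (_ : F.Ω → Prop), (F.Ω → ℝ) → Prop,
      ZPr S w₁ (id : Fin m → Fin m) (ShX w₁ hu x₀ Ψ) (fun J G A =>
        ¬ ChV θ ch d K az wz x Pz J G A) := by
  classical
  obtain ⟨n, hn⟩ : ∃ n, n = d + 1 := ⟨_, rfl⟩
  have hth : 0 < |θ| := abs_pos.2 hθ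
  obtain ⟨K'', hK''⟩ := exists_nat_ge (2 / (|θ| * w₁))
  obtain ⟨K', hK'⟩ : ∃ K', K' = max (max K 1) K'' := ⟨_, rfl⟩
  have hK : max K 1 ≤ K' := by rw [hK']; exact le_max_left _ _
  have hK1 : (1 : ℝ) / ((K' : ℝ) + 1) < |θ| * w₁ := by
    have h0 := mul_pos hth hw0
    rw [div_lt_iff₀ (by positivity)]
    rw [div_le_iff₀ h0] at hK''
    have h1 : (K'' : ℝ) ≤ K' := by
      rw [hK']
      exact_mod_cast le_max_right _ _
    have h2 : (K'' : ℝ) * (|θ| * w₁) ≤ K' * (|θ| * w₁) := mul_le_mul_of_nonneg_right h1 h0.le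
    have h3 : |θ| * w₁ * ((K' : ℝ) + 1) = K' * (|θ| * w₁) + |θ| * w₁ := by ring
    linarith
  obtain ⟨τ₁, hτ₁, J₁, hb⟩ := hb K'
  obtain ⟨Cf, N, hN1, hNC, hbwd⟩ := chn_bwe K n
  have h01 : 0 < 1 - w₁ := by linarith
  obtain ⟨x₀, hx₀⟩ : ∃ x₀ : ℝ, x₀ = min (w₁ / 2) ((w₁ + Pz * (1 - w₁) - P) / 2) := ⟨_, rfl⟩
  have hx0 : 0 < x₀ := by
    rw [hx₀]
    exact lt_min (by linarith) (by linarith)
  have hx1 : x₀ ≤ w₁ / 2 := by rw [hx₀]; exact min_le_left _ _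
  have hx2 : x₀ ≤ (w₁ + Pz * (1 - w₁) - P) / 2 := by rw [hx₀]; exact min_le_right _ _
  obtain ⟨δ, hδ⟩ : ∃ δ, δ = τ₁ / 3 := ⟨_, rfl⟩
  have hδ0 : 0 < δ := by rw [hδ]; linarith
  obtain ⟨Kc, hKc⟩ : ∃ Kc : ℝ, Kc = (6 * (2 : ℕ) + 3) ^ m * ((4 * (2 : ℕ) + 3) ^ m *
    (2 * (2 : ℕ) + 15) ^ m) := ⟨_, rfl⟩
  have hKc0 : 0 < Kc := by
    rw [hKc]
    positivity
  obtain ⟨J₂, hJ₂⟩ := lin (Real.log Kc) hδ0
  obtain ⟨J₃, hJ₃⟩ := lin ((Cf : ℝ) + 1) (mul_pos hx h01)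
  obtain ⟨J₄, hJ₄⟩ := lin ((Cf : ℝ) + 4) (show 0 < w₁ / 2 by linarith)
  obtain ⟨J₅, hJ₅⟩ := lin ((Cf : ℝ) + 6) (show 0 < (w₁ + Pz * (1 - w₁) - P) / 2 by linarith)
  obtain ⟨J₆, hJ₆⟩ := lin (az + 1) (show 0 < a - (w₁ + az * (1 - w₁)) by linarith)
  obtain ⟨J₇, hJ₇⟩ := lin (wz + 1) (show 0 < w - (w₁ + wz * (1 - w₁)) by linarith)
  obtain ⟨J₈, hJ₈⟩ := lin (|θ| * wz + |θ| + Cf + 1) (show 0 < |θ| * w₁ - 1 / ((K' : ℝ) + 1) by
    linarith)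
  refine ⟨x₀, hx0, fun Ψ => ⟨δ / 3, div_pos hδ0 three_pos, δ, hδ0,
    max (max J₁ (max J₂ J₃)) (max (max J₄ J₅) (max (max J₆ J₈) J₇)), ?_⟩⟩
  intro J hJ F A hS κ C z z' hc hR hl J' hJ' B hBA hPB hChV
  simp only [ge_iff_le, max_le_iff] at hJ
  obtain ⟨⟨hJ1, hJ2, hJ3⟩, ⟨hJ4, hJ5⟩, ⟨hJ6, hJ8⟩, hJ7⟩ := hJ
  replace hJ8 := hJ₈ J hJ8
  replace hJ2 := hJ₂ J hJ2
  replace hJ3 := hJ₃ J hJ3
  replace hJ4 := hJ₄ J hJ4
  replace hJ5 := hJ₅ J hJ5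
  replace hJ6 := hJ₆ J hJ6
  replace hJ7 := hJ₇ J hJ7
  have hJr : (0 : ℝ) ≤ J := Nat.cast_nonneg J
  obtain ⟨W, hW⟩ : ∃ W, W = ⌊w₁ * (J : ℝ)⌋₊ := ⟨_, rfl⟩
  have hWr : (W : ℝ) ≤ w₁ * J := by rw [hW]; exact Nat.floor_le (by positivity)
  have hWr' : w₁ * (J : ℝ) < W + 1 := by rw [hW]; exact Nat.lt_floor_add_one _
  have hsumN : W + J' = J := by rw [hW]; exact hJ'
  have hsum : (W : ℝ) + J' = J := by exact_mod_cast hsumN
  have hJ'0 : (0 : ℝ) ≤ J' := Nat.cast_nonneg J'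
  have hJ'1 : (1 - w₁) * J ≤ (J' : ℝ) := by
    have : (1 - w₁) * (J : ℝ) = J - w₁ * J := by ring
    linarith
  have hJ'2 : (J' : ℝ) ≤ (1 - w₁) * J + 1 := by
    have : (1 - w₁) * (J : ℝ) = J - w₁ * J := by ring
    linarith
  have hJ'J : (J' : ℝ) ≤ J := by
    have := Nat.cast_nonneg (α := ℝ) W
    linarith
  have hA0 : 0 ≤ Pe F.p A := Pe_nonneg F.isLaw A
  have hSB : S.St (δ + δ) J F B := by
    refine S.res hδ0.le hS hBA (le_trans ?_ hPB)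
    refine mul_le_mul_of_nonneg_right (Real.exp_le_exp.2 ?_) hA0
    have e1 : 3 * (δ / 3) * (J' : ℝ) = δ * J' := by ring
    rw [e1]
    have := mul_le_mul_of_nonneg_left hJ'J hδ0.le
    linarith
  obtain ⟨hB0, -⟩ := htm _ J F B (by linarith) hSB
  obtain ⟨cb, M, rfl, hM, -, -⟩ := hR
  obtain ⟨a₀, w₀, g, hwa, haJ, hga, hgw, hgP, hg1, hg3⟩ := hChV
  rw [← hn] at hg1 hg3
  -- the windows
  obtain ⟨V, hVd⟩ : ∃ V, V = ⌊wz * (J' : ℝ)⌋₊ := ⟨_, rfl⟩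
  obtain ⟨aZ, haZ⟩ : ∃ aZ, aZ = ⌊az * (J' : ℝ)⌋₊ := ⟨_, rfl⟩
  obtain ⟨eZ, heZ⟩ : ∃ eZ, eZ = lipE θ K ⌊wz * (J' : ℝ)⌋₊ J' := ⟨_, rfl⟩
  have hVr : (V : ℝ) ≤ wz * J' := by rw [hVd]; exact Nat.floor_le (mul_nonneg hwz0 hJ'0)
  have haZr : (aZ : ℝ) ≤ az * J' := by rw [haZ]; exact Nat.floor_le (mul_nonneg haz0 hJ'0)
  have heZr : (eZ : ℝ) ≤ |θ| * V := by
    rw [heZ, ← hVd]
    unfold lipE
    have h0 : 0 ≤ |θ| * (V : ℝ) := by positivity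
    have h1 : |θ| * (V : ℝ) - (J' : ℝ) / ((K : ℝ) + 1) ≤ |θ| * V := by
      have : 0 ≤ (J' : ℝ) / ((K : ℝ) + 1) := by positivity
      linarith
    exact (Nat.cast_le.2 (Nat.floor_le_floor h1)).trans (Nat.floor_le h0)
  rw [← haZ] at hga hgP
  rw [← heZ] at hg1 hg3
  rw [← hVd] at hgw
  have hV0 : w₀ ≤ J' := hwa.trans haJ
  have hCf0 : (0 : ℝ) ≤ Cf := Nat.cast_nonneg _
  have hvis : ∀ i < n, eZ + Cf + (Finset.Icc 0 i).sup g ≤ J' := by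
    intro i hi
    have h0 : ∀ j < n, eZ + Cf + g j ≤ J' := by
      intro j hj
      have h2 := (hg1 j hj).2
      push_cast at h2
      have h3 : x * ((1 - w₁) * J) ≤ x * J' := mul_le_mul_of_nonneg_left hJ'1 hx.le
      have e1 : x * (1 - w₁) * (J : ℝ) = x * ((1 - w₁) * J) := by ring
      rw [e1] at hJ3
      have h4 : ((eZ + Cf + g j : ℕ) : ℝ) ≤ J' := by
        push_cast
        linarith
      exact_mod_cast h4
    have h1 : (Finset.Icc 0 i).sup g ≤ J' - (eZ + Cf) := by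
      refine Finset.sup_le fun j hj => ?_
      have := h0 j ((Finset.mem_Icc.1 hj).2.trans_lt hi)
      omega
    have := h0 i hi
    omega
  have hMW : M q + Cf ≤ W := by
    have h1 : ((M q + Cf : ℕ) : ℝ) < W + 1 := by
      push_cast
      have h2 : x₀ * (J : ℝ) ≤ w₁ / 2 * J := mul_le_mul_of_nonneg_right hx1 hJr
      linarith
    have h2 : M q + Cf < W + 1 := by exact_mod_cast h1
    omega
  rw [← hn] at hinj
  subst hW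
  have hg4 : ChN (zfc F ⌊w₁ * (J : ℝ)⌋₊ J' hsumN.le (shC cb p {q} hu M)
      (fun ω => z' (slam F ⌊w₁ * (J : ℝ)⌋₊ ω)) id) ch n (fun _ => K) a₀ w₀ eZ g B := by
    obtain ⟨G₁, H₁, h1⟩ := hg3
    exact ⟨G₁, H₁, h1.degG, h1.degH, h1.depG, h1.depH, fun ω hω => h1.pos ω hω,
      fun ω hω => h1.agr ω hω, fun ω hω => h1.lip ω hω⟩
  obtain ⟨B₁, hB₁, hPB₁, hfin⟩ := hbwd F hsumN hV0 (cb := cb) (p := p) (q := q) (hp := hu)
    (M := M) (z := z) z' le_rfl hinj (fun i hi => hnq i (by omega)) hg4 hvis hMW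
    (fun ω hω => hc ω (hBA ω hω))
  rw [← hKc] at hPB₁
  have hSB₁ : S.St (δ + δ + δ) J F B₁ := by
    refine S.res hδ0.le hSB hB₁ ?_
    have h1 : Kc ≤ Real.exp (δ * J) := by
      rw [← Real.log_le_iff_le_exp hKc0]
      exact hJ2
    have h2 : Pe F.p B ≤ Real.exp (δ * J) * Pe F.p B₁ :=
      hPB₁.trans (mul_le_mul_of_nonneg_right h1 (Pe_nonneg F.isLaw _))
    have h3 := mul_le_mul_of_nonneg_left h2 (Real.exp_pos (-(δ * J))).le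
    rw [← mul_assoc, ← Real.exp_add, neg_add_cancel, Real.exp_zero, one_mul] at h3
    exact h3
  have e3 : δ + δ + δ = τ₁ := by
    rw [hδ]
    ring
  rw [e3] at hSB₁
  rw [hn] at hfin
  have hWa : ⌊w₁ * (J : ℝ)⌋₊ + aZ ≤ ⌊a * (J : ℝ)⌋₊ := by
    refine Nat.le_floor ?_
    push_cast
    have h1 : az * (J' : ℝ) ≤ az * ((1 - w₁) * J) + az := by
      have h5 := mul_le_mul_of_nonneg_left hJ'2 haz0
      linarith
    have e2 : (a - (w₁ + az * (1 - w₁))) * (J : ℝ) = a * J - w₁ * J - az * ((1 - w₁) * J) := by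
      ring
    rw [e2] at hJ6
    linarith
  have hWV : ⌊w₁ * (J : ℝ)⌋₊ + V ≤ ⌊w * (J : ℝ)⌋₊ := by
    refine Nat.le_floor ?_
    push_cast
    have h1 : wz * (J' : ℝ) ≤ wz * ((1 - w₁) * J) + wz := by
      have h5 := mul_le_mul_of_nonneg_left hJ'2 hwz0
      linarith
    have e2 : (w - (w₁ + wz * (1 - w₁))) * (J : ℝ) = w * J - w₁ * J - wz * ((1 - w₁) * J) := by
      ring
    rw [e2] at hJ7
    linarith
  refine hb J hJ1 F B₁ hSB₁ (Cht.of_chN (K₀ := K') hfin (by omega) (by omega) (by omega) ?_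
    (fun _ _ => hK) ?_ fun i hi => ?_)
  · show ⌊P * (J : ℝ)⌋₊ + (⌊w₁ * (J : ℝ)⌋₊ + a₀) ≤ g d + ⌊w₁ * (J : ℝ)⌋₊ -
      (msc q (M q) (ch d) + lsq N d) + ⌊a * (J : ℝ)⌋₊
    have h2 := msc_le q (M q) (ch d)
    have h3 := hNC d (by omega)
    have h4 : Pz * (J' : ℝ) < ⌊Pz * (J' : ℝ)⌋₊ + 1 := Nat.lt_floor_add_one _
    have h5 : Pz * ((1 - w₁) * J) ≤ Pz * J' := mul_le_mul_of_nonneg_left hJ'1 hPz
    have h6 : (⌊P * (J : ℝ)⌋₊ : ℝ) ≤ P * J := Nat.floor_le (mul_nonneg hP0 hJr)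
    have h7 : ((lsq N d : ℕ) : ℝ) ≤ Cf := by exact_mod_cast h3
    have h8 : ((msc q (M q) (ch d) : ℕ) : ℝ) ≤ M q := by exact_mod_cast h2
    have h9 : x₀ * (J : ℝ) ≤ (w₁ + Pz * (1 - w₁) - P) / 2 * J :=
      mul_le_mul_of_nonneg_right hx2 hJr
    have e4 : (w₁ + Pz * (1 - w₁) - P) / 2 * (J : ℝ) + (w₁ + Pz * (1 - w₁) - P) / 2 * J =
        w₁ * J + Pz * ((1 - w₁) * J) - P * J := by ring
    have h11 : ((⌊P * (J : ℝ)⌋₊ + (msc q (M q) (ch d) + lsq N d) : ℕ) : ℝ) ≤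
        ((⌊Pz * (J' : ℝ)⌋₊ + ⌊w₁ * (J : ℝ)⌋₊ : ℕ) : ℝ) := by
      push_cast
      linarith
    have h12 : ⌊P * (J : ℝ)⌋₊ + (msc q (M q) (ch d) + lsq N d) ≤
        ⌊Pz * (J' : ℝ)⌋₊ + ⌊w₁ * (J : ℝ)⌋₊ := by exact_mod_cast h11
    omega
  · have h2 := mul_le_mul_of_nonneg_left hJ'2 (mul_nonneg hth.le hwz0)
    refine Nat.le_floor ?_
    push_cast
    have h3 : w * (J : ℝ) < ⌊w * (J : ℝ)⌋₊ + 1 := Nat.lt_floor_add_one _
    have h4 := mul_le_mul_of_nonneg_left h3.le (abs_nonneg θ)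
    have h5 : |θ| * (V : ℝ) ≤ |θ| * (wz * J') := mul_le_mul_of_nonneg_left hVr hth.le
    have h6 : |θ| * ((w₁ + wz * (1 - w₁)) * J) ≤ |θ| * (w * J) :=
      mul_le_mul_of_nonneg_left (mul_le_mul_of_nonneg_right hw.le hJr) hth.le
    have e2 : (|θ| * w₁ - 1 / ((K' : ℝ) + 1)) * (J : ℝ) =
        |θ| * ((w₁ + wz * (1 - w₁)) * J) - |θ| * wz * ((1 - w₁) * J) - J / ((K' : ℝ) + 1) := by
      ring
    rw [e2] at hJ8
    have e5 : |θ| * (wz * (J' : ℝ)) = |θ| * wz * J' := by ring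
    rw [e5] at h5
    linarith
  · have h1 := (hg1 i (by omega)).1
    show g i + ⌊w₁ * (J : ℝ)⌋₊ - (msc q (M q) (ch i) + lsq N i) ≤ J
    omega

end Pool.SHE33
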