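import Pool.Agent.H33.SHE.Chp
import Pool.Agent.H33.SHE.Lfa
import Pool.Agent.H2.GEN.ChU
import Pool.Agent.H60.ALT.Nza

/-!
# Chains of two-sided labels of the sheared zoom: the gradients

`chn_bwe`: a chain of visible two-sided labels of coordinates which are not sheared is a chain of
two-sided labels of the family, on a part of the event of constant proportion; its gradients are of
the same size in natural units.
-/

set_option autoImplicit false

namespace Pool.SHE33

open Finset Real MvPolynomial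
open Pool.Agent.H49.Ent Pool.Agent.H32.Dense Pool.STK Pool.KA Pool.KSAT Pool.K2S Pool.PB Pool.S6C
open Pool.GEN Pool.ZCL Pool.TOP Pool.ZLC Pool.ZFW Pool.CHT

variable {m n J : ℕ} {κ : Type}

/-- **The derivative of the label of a coordinate which is not sheared.** -/
theorem pd_ypo (W M : ℕ) (p q : Fin m) (τ c : ℝ) (cl vl : Fin m → ℝ) {ch : ℕ → Fin m} {i l : ℕ}
    (hnq : ∀ j ≤ i, ch j ≠ q) (hl : l < i) {Q : MvPolynomial (Option (Fin m)) ℝ}
    (hQ : DepC ch i Q) (b : Option (Fin m) → ℝ) :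
    eval b (pderiv (some (ch l)) (ypo W M p q τ c cl vl (ch i) Q)) =
      eval (yph W M p q τ c cl vl b) (pderiv (some (ch l)) Q) := by
  classical
  have hW : (2 : ℝ) ^ W ≠ 0 := by positivity
  have e1 : msc q M (ch i) = 0 := by
    unfold msc
    rw [if_neg (hnq i le_rfl)]
  have e2 : ∀ o : Option (Fin m), (MvPolynomial.pderiv (some (ch l))) (yt (m := m) W τ) = 0 := by
    intro _
    unfold yt
    rw [map_sub, pderiv_C, sub_zero, pderiv_mul, pderiv_C, zero_mul, zero_add, pderiv_X_of_ne (by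
      simp), mul_zero]
  have e3 : (fun o => eval b (ysv W M p q τ c cl vl o)) = yph W M p q τ c cl vl b := by
    funext o
    exact eval_ysv W M p q τ c cl vl b o
  unfold ypo
  rw [if_neg (hnq i le_rfl), add_zero, e1, pow_zero, pderiv_mul, pderiv_C, zero_mul, zero_add,
    map_mul, eval_C, map_add, map_add, map_add, pderiv_C, zero_add, pderiv_mul, pderiv_C, zero_mul,
    zero_add, e2 none, mul_zero, map_zero, add_zero, pd_aeval, map_sum, Finset.sum_eq_single (some (ch l))]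
  · rw [map_mul, eval_aevalσ, e3]
    have e4 : eval b (pderiv (some (ch l)) (ysv W M p q τ c cl vl (some (ch l)))) = 2 ^ W := by
      have e5 : msc q M (ch l) = 0 := by
        unfold msc
        rw [if_neg (hnq l hl.le)]
      unfold ysv yc
      simp only
      rw [if_neg (hnq l hl.le), sub_zero, e5, pow_zero, div_one, map_sub, map_add, pderiv_C,
        zero_add, pderiv_mul, pderiv_C, zero_mul, zero_add, pderiv_X_self, mul_one, pderiv_mul,
        pderiv_C, zero_mul, zero_add, e2 none, mul_zero, sub_zero, eval_C]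
    rw [e4]
    field_simp
  · intro o _ ho
    rw [map_mul, eval_aevalσ, e3]
    rcases o with _ | j
    · have e4 : (MvPolynomial.pderiv (some (ch l))) (ysv W M p q τ c cl vl none) = 0 := e2 none
      rw [e4, map_zero, mul_zero]
    · by_cases hj : ∃ l' < i, some j = some (ch l')
      · obtain ⟨l', hl', hj⟩ := hj
        have hj' : j = ch l' := by simpa using hj
        have hjl : j ≠ ch l := fun h => ho (by rw [h])
        have hjq : j ≠ q := by rw [hj']; exact hnq l' hl'.le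
        have e4 : (MvPolynomial.pderiv (some (ch l))) (ysv W M p q τ c cl vl (some j)) = 0 := by
          unfold ysv yc
          simp only
          rw [if_neg hjq, sub_zero, map_sub, map_add, pderiv_C, zero_add, pderiv_mul, pderiv_C,
            zero_mul, zero_add, pderiv_X_of_ne (by simpa using hjl), mul_zero, pderiv_mul,
            pderiv_C, zero_mul, zero_add, e2 none, mul_zero, sub_zero]
        rw [e4, map_zero, mul_zero]
      · push Not at hj
        rw [Pool.CHT.DepC.pd_zero hQ (by simp) hj, zero_mul]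
  · intro h
    exact absurd (Finset.mem_univ _) h

/-- **Chains of the sheared zoom**, where its points and lines are functions of the points and lines
of the family; coordinates which are not sheared. -/
theorem chn_bwe' (D r : ℕ) : ∃ C N : ℕ, 1 ≤ N ∧ (∀ i ≤ r, lsq N i ≤ C) ∧ ∀ {m J : ℕ} (F : Fam m J)
    {W J' V az : ℕ} (h : W + J' = J) {κ : Type} {cb : κ → Fin m → ℝ} {p q : Fin m}
    {hp : p ∉ ({q} : Finset (Fin m))} {M : Fin m → ℕ} (gz : F.Ω → κ) {n : ℕ}
    {ch : ℕ → Fin m} {e : ℕ} {g : ℕ → ℕ} {B : F.Ω → Prop}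
    {Gz : PtT (zfc F W J' h.le (shC cb p {q} hp M) gz id) → ℕ →
      MvPolynomial (Option (Fin m)) ℝ}
    {Hz : LnT (zfc F W J' h.le (shC cb p {q} hp M) gz id) → ℕ →
      MvPolynomial (Option (Fin m)) ℝ}
    {pt : PtT F → Option (PtT (zfc F W J' h.le (shC cb p {q} hp M) gz id))}
    {ln : LnT F → Option (LnT (zfc F W J' h.le (shC cb p {q} hp M) gz id))}, n ≤ r →
    Set.InjOn ch (Set.Iio n) → (∀ l < n, ch l ≠ q) →
    ChOK (zfc F W J' h.le (shC cb p {q} hp M) gz id) ch n (fun _ => D)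
      az V e g B Gz Hz →
    (∀ i < n, e + C + (Finset.Icc 0 i).sup g ≤ J') → M q + C ≤ W →
    (∀ ω, B ω → pt (ptr F J ω) =
      some (ptr (zfc F W J' h.le (shC cb p {q} hp M) gz id) J' ω)) →
    (∀ ω, B ω → ln (slam F (W + V) ω) =
      some (slam (zfc F W J' h.le (shC cb p {q} hp M) gz id) V ω)) →
    ChN F ch n (fun _ => max D 1) (W + az) (W + V) (e + C)
        (fun i => g i + W - (msc q (M q) (ch i) + lsq N i)) B := by
  classical
  obtain ⟨c₀, D₁, hD₁, hdil⟩ := nbx_dil r (fun _ => D)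
  obtain ⟨C₁, hmv⟩ := Pool.PSI.nbx_mv D r
  obtain ⟨N, hN⟩ : ∃ N, N = c₀ + D₁ + 3 := ⟨_, rfl⟩
  have hN1 : 1 ≤ N := by omega
  refine ⟨C₁ + lsq N r + 3, N, hN1, fun i hi => (lsq_mono hN1 hi).trans (by omega), ?_⟩
  intro m J F W J' V az h κ cb p q hp M gz n ch e g B Gz Hz pt ln hn hch hnq hL hvis hMW hptB hlnB
  have hpq : ∀ l < n, ch l = q → ∃ l' < l, ch l' = p := fun l hl h => absurd h (hnq l hl)
  have hlsqr : ∀ i < n, lsq N i ≤ lsq N r := fun i hi => lsq_mono hN1 (hi.le.trans hn)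
  -- the polynomials
  obtain ⟨tr, htr⟩ : ∃ tr : (((ℕ × κ) × ((Fin m → ℤ) × (Fin m → ℤ))) × F.ζ) → Fin m →
      MvPolynomial (Option (Fin m)) ℝ → MvPolynomial (Option (Fin m)) ℝ, tr = fun β j Q =>
      ypo W (M q) p q (β.1.1.1 : ℝ) (clp (M q) (cb β.1.1.2 q)) (fun i => (β.1.2.1 i : ℝ))
        (fun i => (β.1.2.2 i : ℝ)) j Q := ⟨_, rfl⟩
  obtain ⟨G, hG⟩ : ∃ G : PtT F → ℕ → MvPolynomial (Option (Fin m)) ℝ, G = fun y i => if i < n then
        (match pt y with | none => 0 | some y' => tr y'.2.2 (ch i) (Gz y' i)) else 0 := ⟨_, rfl⟩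
  obtain ⟨H, hH⟩ : ∃ H : LnT F → ℕ → MvPolynomial (Option (Fin m)) ℝ, H = fun s i => if i < n then
        (match ln s with | none => 0 | some s' => tr s'.2.1 (ch i) (Hz s' i)) else 0 := ⟨_, rfl⟩
  have hdegt : ∀ β j (Q : MvPolynomial (Option (Fin m)) ℝ), Q.totalDegree ≤ D →
      (tr β j Q).totalDegree ≤ max D 1 := by
    intro β j Q hQ
    rw [htr]
    exact deg_ypo _ _ _ _ _ _ _ _ _ hQ
  have hdept : ∀ β i, i < n → ∀ Q : MvPolynomial (Option (Fin m)) ℝ, DepC ch i Q →
      DepC ch i (tr β (ch i) Q) := by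
    intro β i hi Q hQ
    rw [htr]
    exact dep_ypo _ _ _ _ _ _ _ _ (fun l hl hlq => hpq l (hl.trans_lt hi) hlq) hQ
  have hd0 : ∀ i : ℕ, DepC ch i (0 : MvPolynomial (Option (Fin m)) ℝ) := by
    intro i b b' _ _
    rw [map_zero, map_zero]
  have hdegG : ∀ y i, (G y i).totalDegree ≤ max D 1 := by
    intro y i
    rw [hG]
    simp only
    split_ifs
    · rcases pt y with _ | y'
      · simp only
        rw [totalDegree_zero]
        exact Nat.zero_le _
      · exact hdegt _ _ _ (hL.degG y' i)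
    · rw [totalDegree_zero]
      exact Nat.zero_le _
  have hdegH : ∀ s i, (H s i).totalDegree ≤ max D 1 := by
    intro s i
    rw [hH]
    simp only
    split_ifs
    · rcases ln s with _ | s'
      · simp only
        rw [totalDegree_zero]
        exact Nat.zero_le _
      · exact hdegt _ _ _ (hL.degH s' i)
    · rw [totalDegree_zero]
      exact Nat.zero_le _
  have hdepG : ∀ y i, DepC ch i (G y i) := by
    intro y i
    rw [hG]
    simp only
    split_ifs with hi
    · rcases pt y with _ | y'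
      · exact hd0 i
      · exact hdept _ i hi _ (hL.depG y' i)
    · exact hd0 i
  have hdepH : ∀ s i, DepC ch i (H s i) := by
    intro s i
    rw [hH]
    simp only
    split_ifs with hi
    · rcases ln s with _ | s'
      · exact hd0 i
      · exact hdept _ i hi _ (hL.depH s' i)
    · exact hd0 i
  -- the own values
  have hGω : ∀ ω : F.Ω, B ω → ∀ i < n,
      G (ptr F J ω) i = tr (F.blab W (shC cb p {q} hp M) gz ω) (ch i)
        (Gz (ptr (zfc F W J' h.le (shC cb p {q} hp M) gz id) J' ω) i) := by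
    intro ω hω i hi
    rw [hG]
    simp only
    rw [if_pos hi, hptB ω hω]
    rfl
  have hHω : ∀ ω : F.Ω, B ω → ∀ i < n,
      H (slam F (W + V) ω) i = tr (F.blab W (shC cb p {q} hp M) gz ω) (ch i)
        (Hz (slam (zfc F W J' h.le (shC cb p {q} hp M) gz id) V ω) i) := by
    intro ω hω i hi
    rw [hH]
    simp only
    rw [if_pos hi, hlnB ω hω]
    rfl
  -- the point of the zoom
  obtain ⟨φ, hφ⟩ : ∃ φ : F.Ω → (Option (Fin m) → ℝ) → Option (Fin m) → ℝ, φ = fun ω =>
      yph W (M q) p q (F.T1 W ω) (clp (M q) (cb (gz ω) q))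
        (fun i => (F.bcl W (shC cb p {q} hp M) gz ω i : ℝ))
        (fun i => (F.bvl (shC cb p {q} hp M) gz ω i : ℝ)) := ⟨_, rfl⟩
  have htrpos : ∀ (ω : F.Ω) (i : ℕ) (Q : MvPolynomial (Option (Fin m)) ℝ)
      (b : Option (Fin m) → ℝ), b (some (ch i)) -
        eval b (tr (F.blab W (shC cb p {q} hp M) gz ω) (ch i) Q) =
      2 ^ msc q (M q) (ch i) / 2 ^ W * (φ ω b (some (ch i)) - eval (φ ω b) Q) := by
    intro ω i Q b
    rw [htr, hφ]
    exact ypo_pos _ _ _ _ _ _ _ _ _ _ _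
  have htrsub : ∀ (ω : F.Ω) (i : ℕ) (Q Q' : MvPolynomial (Option (Fin m)) ℝ)
      (b : Option (Fin m) → ℝ), eval b (tr (F.blab W (shC cb p {q} hp M) gz ω) (ch i) Q) -
        eval b (tr (F.blab W (shC cb p {q} hp M) gz ω) (ch i) Q') =
      2 ^ msc q (M q) (ch i) / 2 ^ W * (eval (φ ω b) Q - eval (φ ω b) Q') := by
    intro ω i Q Q' b
    rw [htr, hφ]
    exact ypo_sub _ _ _ _ _ _ _ _ _ _ _ _
  have htrd : ∀ (ω : F.Ω) (i l : ℕ), i < n → l < i → ∀ Q : MvPolynomial (Option (Fin m)) ℝ,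
      DepC ch i Q → ∀ b : Option (Fin m) → ℝ, eval b (pderiv (some (ch l))
        (tr (F.blab W (shC cb p {q} hp M) gz ω) (ch i) Q)) =
          eval (φ ω b) (pderiv (some (ch l)) Q) := by
    intro ω i l hi hl Q hQ b
    rw [htr, hφ]
    exact pd_ypo _ _ _ _ _ _ _ _ (fun j hj => hnq j (hj.trans_lt hi)) hl hQ b
  have hφn : ∀ (ω : F.Ω) (b : Option (Fin m) → ℝ), φ ω b none =
      (zfc F W J' h.le (shC cb p {q} hp M) gz id).t ω + 2 ^ W * (b none - F.t ω) := by
    intro ω b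
    rw [hφ]
    exact yph_none h _ _ _ _ _ _ _ _ ω
  have hφx : ∀ (ω : F.Ω) (j : Fin m),
      |φ ω (bt F ω) (some j) - (zfc F W J' h.le (shC cb p {q} hp M) gz id).x ω j| ≤
        3 / 2 ^ J' := by
    intro ω j
    rw [hφ]
    exact yph_near h gz ω j
  -- the sides
  have hsd : ∀ i < n, msc q (M q) (ch i) + lsq N i ≤ g i + W := by
    intro i hi
    have h1 := msc_le q (M q) (ch i)
    have h2 := hlsqr i hi
    omega
  have hside : ∀ i < n, (2 : ℝ) ^ msc q (M q) (ch i) / 2 ^ W * (2 ^ lsq N i / 2 ^ g i) =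
      1 / 2 ^ (g i + W - (msc q (M q) (ch i) + lsq N i)) := by
    intro i hi
    have h1 := hsd i hi
    have h2 : g i + W = g i + W - (msc q (M q) (ch i) + lsq N i) +
      (msc q (M q) (ch i) + lsq N i) := by omega
    have h3 : (2 : ℝ) ^ g i * 2 ^ W =
        2 ^ (g i + W - (msc q (M q) (ch i) + lsq N i)) *
          (2 ^ msc q (M q) (ch i) * 2 ^ lsq N i) := by
      rw [← pow_add, ← pow_add 2 (msc q (M q) (ch i)), ← pow_add, ← h2]
    rw [div_mul_div_comm, div_eq_div_iff (by positivity) (by positivity), one_mul,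
      mul_comm (2 ^ W) (2 ^ g i), h3]
    ring
  have hl3 : ∀ i, (3 : ℝ) ≤ 2 ^ lsq N i := by
    intro i
    have h1 : 2 ≤ lsq N i := by
      unfold lsq
      calc 2 ≤ N := by omega
        _ = N ^ 1 := (pow_one N).symm
        _ ≤ N ^ (i + 1) := Nat.pow_le_pow_right hN1 (by omega)
    calc (3 : ℝ) ≤ 2 ^ 2 := by norm_num
      _ ≤ 2 ^ lsq N i := pow_le_pow_right₀ one_le_two h1
  -- the box of the family
  have hbox : ∀ ω : F.Ω, B ω → ∀ i ≤ n, ∀ b : Option (Fin m) → ℝ,
      NBx ch (G (ptr F J ω)) (fun i => g i + W - (msc q (M q) (ch i) + lsq N i)) (W + az)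
        (F.t ω) i b →
      |φ ω b none - (zfc F W J' h.le (shC cb p {q} hp M) gz id).t ω| ≤ 1 / 2 ^ az ∧ ∀ l < i,
        |φ ω b (some (ch l)) - eval (φ ω b)
          (Gz (ptr (zfc F W J' h.le (shC cb p {q} hp M) gz id) J' ω) l)| ≤
            2 ^ lsq N l / 2 ^ g l := by
    intro ω hω i hi b hb
    constructor
    · rw [hφn, add_sub_cancel_left, abs_mul, abs_of_pos (by positivity : (0 : ℝ) < 2 ^ W)]
      have h1 := mul_le_mul_of_nonneg_left hb.1 (by positivity : (0 : ℝ) ≤ 2 ^ W)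
      refine h1.trans (le_of_eq ?_)
      rw [pow_add]
      field_simp
    · intro l hl
      have hln : l < n := hl.trans_le hi
      have h1 := hb.2 l hl
      rw [hGω ω hω l hln, htrpos ω l, abs_mul,
        abs_of_pos (by positivity : (0 : ℝ) < 2 ^ msc q (M q) (ch l) / 2 ^ W),
        ← hside l hln] at h1
      exact le_of_mul_le_mul_left h1 (by positivity)
  -- the growth
  have hgrow : ∀ i < n, c₀ + N ^ i * D₁ ≤ lsq N i := by
    intro i _
    unfold lsq
    have h1 : 1 ≤ N ^ i := Nat.one_le_pow _ _ hN1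
    have h2 : c₀ * 1 ≤ c₀ * N ^ i := Nat.mul_le_mul_left _ h1
    have h3 : N ^ i * N = c₀ * N ^ i + N ^ i * D₁ + 3 * N ^ i := by
      nth_rewrite 2 [hN]
      ring
    rw [pow_succ, h3]
    omega
  have hlow : ∀ i, ∀ l < i, lsq N l ≤ N ^ i := by
    intro i l hl
    exact Nat.pow_le_pow_right hN1 (by omega)
  have hPOS : ∀ ω : F.Ω, B ω → ∀ i < n,
      |F.x ω (ch i) - eval (bt F ω) (G (ptr F J ω) i)| ≤
        1 / 2 ^ (g i + W - (msc q (M q) (ch i) + lsq N i)) := by
    intro ω hBω i hi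
    have hvi := hvis i hi
    have hgi : g i ≤ (Finset.Icc 0 i).sup g := Finset.le_sup (f := g)
      (Finset.mem_Icc.2 ⟨Nat.zero_le _, le_rfl⟩)
    have h6 : (3 : ℝ) / 2 ^ J' ≤ 1 / 2 ^ (J' - 3) := by
      have e1 : J' = J' - 3 + 3 := by omega
      rw [div_le_div_iff₀ (by positivity) (by positivity), one_mul]
      calc (3 : ℝ) * 2 ^ (J' - 3) ≤ 2 ^ 3 * 2 ^ (J' - 3) := by
            refine mul_le_mul_of_nonneg_right (by norm_num) (by positivity)
        _ = 2 ^ (J' - 3 + 3) := by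
            rw [pow_add]
            ring
        _ = 2 ^ J' := by rw [← e1]
    have hb0 : φ ω (bt F ω) none =
        bt (zfc F W J' h.le (shC cb p {q} hp M) gz id) ω none := by
      rw [hφn]
      show (zfc F W J' h.le (shC cb p {q} hp M) gz id).t ω + 2 ^ W * (F.t ω - F.t ω) =
        (zfc F W J' h.le (shC cb p {q} hp M) gz id).t ω
      rw [sub_self, mul_zero, add_zero]
    have h7 := hmv (c := ch) (n := n)
      (G := Gz (ptr (zfc F W J' h.le (shC cb p {q} hp M) gz id) J' ω)) (g := g)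
      (δ := fun _ => J' - 3) (a := az) (e := e) (y := 0)
      (t := (zfc F W J' h.le (shC cb p {q} hp M) gz id).t ω) hn hch (hL.degG _) (hL.depG _)
      (fun i hi b hb l hl => hL.lip ω hBω i hi b hb l hl)
      (fun i' hi' l hl => by
        have h8 := hvis i' hi'
        have h9 : (Finset.Icc l i').sup g ≤ (Finset.Icc 0 i').sup g :=
          Finset.sup_mono (Finset.Icc_subset_Icc (Nat.zero_le _) le_rfl)
        show e + C₁ * (0 + 1) + (Finset.Icc l i').sup g ≤ J' - 3
        omega) (bt (zfc F W J' h.le (shC cb p {q} hp M) gz id) ω) (by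
        change |(zfc F W J' h.le (shC cb p {q} hp M) gz id).t ω -
          (zfc F W J' h.le (shC cb p {q} hp M) gz id).t ω| ≤ _
        rw [sub_self, abs_zero]
        positivity) i hi (fun j hj => by
        rw [pow_zero]
        exact hL.pos ω hBω j (hj.trans hi))
      (φ ω (bt F ω)) hb0 (fun j _ => (hφx ω (ch j)).trans h6)
    have h8 := hL.pos ω hBω i hi
    have h9 := (hφx ω (ch i)).trans h6
    have h10 : (1 : ℝ) / 2 ^ (J' - 3) ≤ 1 / 2 ^ g i := inv_mono (by omega)
    have h11 : |φ ω (bt F ω) (some (ch i)) - eval (φ ω (bt F ω))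
        (Gz (ptr (zfc F W J' h.le (shC cb p {q} hp M) gz id) J' ω) i)| ≤
        2 ^ lsq N i / 2 ^ g i := by
      have e1 : (3 : ℝ) / 2 ^ g i ≤ 2 ^ lsq N i / 2 ^ g i :=
        div_le_div_of_nonneg_right (hl3 i) (by positivity)
      have e2 : (3 : ℝ) / 2 ^ g i = 1 / 2 ^ g i + 1 / 2 ^ g i + 1 / 2 ^ g i := by ring
      rw [e2] at e1
      rw [abs_le] at h7 h8 h9 ⊢
      constructor <;> linarith [h7.1, h7.2, h8.1, h8.2, h9.1, h9.2]
    have e3 : F.x ω (ch i) = bt F ω (some (ch i)) := rfl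
    rw [e3, hGω ω hBω i hi, htrpos ω i, abs_mul,
      abs_of_pos (by positivity : (0 : ℝ) < 2 ^ msc q (M q) (ch i) / 2 ^ W), ← hside i hi]
    exact mul_le_mul_of_nonneg_left h11 (by positivity)
  have hAGR : ∀ ω : F.Ω, B ω → ∀ i < n, ∀ b : Option (Fin m) → ℝ,
      NBx ch (G (ptr F J ω)) (fun i => g i + W - (msc q (M q) (ch i) + lsq N i)) (W + az)
        (F.t ω) i b →
      |eval b (G (ptr F J ω) i) - eval b (H (slam F (W + V) ω) i)| ≤
        1 / 2 ^ (g i + W - (msc q (M q) (ch i) + lsq N i)) := by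
    intro ω hBω i hi b hb
    obtain ⟨h1, h2⟩ := hbox ω hBω i hi.le b hb
    rw [hGω ω hBω i hi, hHω ω hBω i hi, htrsub, abs_mul,
      abs_of_pos (by positivity : (0 : ℝ) < 2 ^ msc q (M q) (ch i) / 2 ^ W), ← hside i hi]
    refine mul_le_mul_of_nonneg_left ?_ (by positivity)
    obtain ⟨Q₁, hQ₁⟩ : ∃ Q₁, Q₁ =
      Gz (ptr (zfc F W J' h.le (shC cb p {q} hp M) gz id) J' ω) i := ⟨_, rfl⟩
    obtain ⟨Q₂, hQ₂⟩ : ∃ Q₂, Q₂ =
      Hz (slam (zfc F W J' h.le (shC cb p {q} hp M) gz id) V ω) i := ⟨_, rfl⟩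
    have h3 := hdil (c := ch) (i := i)
      (G := Gz (ptr (zfc F W J' h.le (shC cb p {q} hp M) gz id) J' ω))
      (Q := Q₁ - Q₂) (g := g) (a := az)
      (t := (zfc F W J' h.le (shC cb p {q} hp M) gz id).t ω)
      (M := 1 / 2 ^ g i) (N ^ i) (by omega) (hch.mono (Set.Iio_subset_Iio hi.le)) (hL.degG _)
      (hL.depG _) (fun b b' hn hb => by
        rw [map_sub, map_sub, hQ₁, hQ₂, hL.depG _ i b b' hn hb, hL.depH _ i b b' hn hb])
      ((totalDegree_sub _ _).trans (max_le (by rw [hQ₁]; exact hL.degG _ i) (by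
        rw [hQ₂]
        exact hL.degH _ i))) (by positivity)
      (fun b hb => by
        rw [map_sub, hQ₁, hQ₂]
        exact hL.agr ω hBω i hi b hb) (φ ω b) h1 (fun l hl => (h2 l hl).trans
          (div_le_div_of_nonneg_right (pow_le_pow_right₀ one_le_two (hlow i l hl))
            (by positivity)))
    rw [map_sub] at h3
    rw [← hQ₁, ← hQ₂]
    refine h3.trans ?_
    rw [mul_one_div]
    exact div_le_div_of_nonneg_right (pow_le_pow_right₀ one_le_two (hgrow i hi)) (by positivity)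
  refine ⟨G, H, hdegG, hdegH, hdepG, hdepH, hPOS, hAGR, fun ω hω i hi b hb l hl => ?_⟩
  -- the gradients
  obtain ⟨h1, h2⟩ := hbox ω hω i hi.le b hb
  rw [hGω ω hω i hi, htrd ω i l hi hl _ (hL.depG _ i) b]
  have h3 := hdil (c := ch) (i := i)
    (G := Gz (ptr (zfc F W J' h.le (shC cb p {q} hp M) gz id) J' ω))
    (Q := pderiv (some (ch l)) (Gz (ptr (zfc F W J' h.le (shC cb p {q} hp M) gz id) J' ω) i))
    (g := g) (a := az) (t := (zfc F W J' h.le (shC cb p {q} hp M) gz id).t ω)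
    (M := 2 ^ (e + nlp g l i)) (N ^ i) (by omega) (hch.mono (Set.Iio_subset_Iio hi.le))
    (hL.degG _) (hL.depG _) ((hL.depG _ i).pderiv l)
    ((Pool.ALT.pd_dg _ _).trans (hL.degG _ i)) (by positivity)
    (fun b hb => hL.lip ω hω i hi b hb l hl) (φ ω b) h1 (fun l hl => (h2 l hl).trans
      (div_le_div_of_nonneg_right (pow_le_pow_right₀ one_le_two (hlow i l hl))
        (by positivity)))
  refine h3.trans ?_
  rw [← pow_add]
  refine pow_le_pow_right₀ one_le_two ?_
  have h4 : nlp g l i ≤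
      nlp (fun i => g i + W - (msc q (M q) (ch i) + lsq N i)) l i := by
    have hm0 : ∀ j < n, msc q (M q) (ch j) = 0 := fun j hj => by
      unfold msc
      rw [if_neg (hnq j hj)]
    unfold nlp
    have h5 : (Finset.Icc l i).sup g + W ≤
        (Finset.Icc l i).sup (fun i => g i + W - (msc q (M q) (ch i) + lsq N i)) + lsq N i := by
      obtain ⟨j, hj, hj2⟩ := Finset.exists_mem_eq_sup (Finset.Icc l i)
        (Finset.nonempty_Icc.2 hl.le) g
      have hj3 := Finset.mem_Icc.1 hj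
      have h6 : g j + W - (msc q (M q) (ch j) + lsq N j) ≤
          (Finset.Icc l i).sup (fun i => g i + W - (msc q (M q) (ch i) + lsq N i)) :=
        Finset.le_sup (f := fun i => g i + W - (msc q (M q) (ch i) + lsq N i)) hj
      have h7 := hsd j (by omega)
      have h8 : lsq N j ≤ lsq N i := lsq_mono hN1 hj3.2
      rw [hm0 j (by omega)] at h6 h7
      rw [hj2]
      omega
    have h9 := hsd i hi
    show (Finset.Icc l i).sup g - g i ≤
      (Finset.Icc l i).sup (fun i => g i + W - (msc q (M q) (ch i) + lsq N i)) -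
        (g i + W - (msc q (M q) (ch i) + lsq N i))
    obtain ⟨x, hx⟩ : ∃ x, x = (Finset.Icc l i).sup
      (fun i => g i + W - (msc q (M q) (ch i) + lsq N i)) := ⟨_, rfl⟩
    rw [← hx] at h5 ⊢
    rw [hm0 i hi] at h9 ⊢
    omega
  have h5 := hgrow i hi
  have h6 := hlsqr i hi
  omega

/-- **Chains of the sheared zoom**, coordinates which are not sheared. -/
theorem chn_bwe (D r : ℕ) : ∃ C N : ℕ, 1 ≤ N ∧ (∀ i ≤ r, lsq N i ≤ C) ∧ ∀ {m J : ℕ} (F : Fam m J)
    {W J' V az : ℕ} (h : W + J' = J) (_ : V ≤ J') {κ : Type} {cb : κ → Fin m → ℝ} {p q : Fin m}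
    {hp : p ∉ ({q} : Finset (Fin m))} {M : Fin m → ℕ} {z : PtT F → κ} (z' : LnT F → κ) {n : ℕ}
    {ch : ℕ → Fin m} {e : ℕ} {g : ℕ → ℕ} {B : F.Ω → Prop}, n ≤ r → Set.InjOn ch (Set.Iio n) →
    (∀ l < n, ch l ≠ q) →
    ChN (zfc F W J' h.le (shC cb p {q} hp M) (fun ω => z' (slam F W ω)) id) ch n (fun _ => D)
      az V e g B →
    (∀ i < n, e + C + (Finset.Icc 0 i).sup g ≤ J') → M q + C ≤ W →
    (∀ ω, B ω → z (ptr F J ω) = z' (slam F W ω)) →
    ∃ B₁ : F.Ω → Prop, Sub B₁ B ∧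
      Pe F.p B ≤ (6 * (2 : ℕ) + 3) ^ m * ((4 * (2 : ℕ) + 3) ^ m * (2 * (2 : ℕ) + 15) ^ m) *
        Pe F.p B₁ ∧
      ChN F ch n (fun _ => max D 1) (W + az) (W + V) (e + C)
        (fun i => g i + W - (msc q (M q) (ch i) + lsq N i)) B₁ := by
  obtain ⟨C, N, hN, hNC, hmain⟩ := chn_bwe' D r
  refine ⟨C, N, hN, hNC, ?_⟩
  intro m J F W J' V az h hV κ cb p q hp M z z' n ch e g B hn hch hpq hL hvis hMW hz
  obtain ⟨Gz, Hz, hL⟩ := hL
  obtain ⟨B₁, hB₁, hPB, pt, ln, -, -, hptB, hlnB, -, -⟩ := zfc_fun F h (c := 2)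
    (C := shC cb p {q} hp M) (by exact_mod_cast shC_bd cb p {q} hp M) (id : Fin m → Fin m)
    (z' := z') hz
  exact ⟨B₁, hB₁, hPB, hmain F h (fun ω => z' (slam F W ω)) hn hch hpq (hL.sub hB₁) hvis hMW hptB
    (hlnB V hV)⟩

end Pool.SHE33
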