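import Pool.Agent.H33.SHV.Chv
import Pool.Agent.H33.SHE.Shi
import Pool.Agent.H33.SHE.Shr

/-!
# The class of the sheared zooms, with the chain labels

`ShCh`: the class `Sb` has no visible chain labels which the sheared zooms do not have. `shcl_exc`: the
class of the sheared zooms has this property as well. `she_pkgc`: the package behind the window `b`.
-/

set_option autoImplicit false

namespace Pool.SHE33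

open Finset Real MvPolynomial
open Pool.Agent.H49.Ent Pool.Agent.H32.Dense Pool.STK Pool.KA Pool.KSAT Pool.K2S Pool.PB Pool.S6C
open Pool.GEN Pool.ZCL Pool.TOP Pool.ZLC Pool.ZCO Pool.ONE Pool.PKG
open Pool.LBT (LSys ThrOf)
open Pool.ALL (RateOf numx)

variable {n : ℕ}

/-- **The class of the sheared zooms**: the chain labels. -/
structure ShCh (S Sb : PCl n) (b : ℝ) {p q : Fin n} (hu : p ∉ ({q} : Finset (Fin n)))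
    (Ψ : ℕ → ∀ (J : ℕ) (F : Fam n J) (_ : F.Ω → Prop), (F.Ω → ℝ) → Prop)
    (ch : ℕ → Fin n) : Prop where
  chv : ∀ (j r K : ℕ) (az wz x Pz : ℚ), (∃ k : ℕ, ZPr S b (id : Fin n → Fin n)
    (ShX b hu (1 / ((k : ℝ) + 1)) (Ψ k))
      (fun J G A => ¬ ChV (Pool.PKG.tht j) ch r K az wz x Pz J G A)) →
      Bas Sb (fun J G A => ¬ ChV (Pool.PKG.tht j) ch r K az wz x Pz J G A)

/-- **The class of the sheared zooms exists**, with the chain labels. -/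
theorem shcl_exc (hn : 2 ≤ n) {S : PCl n} {C₀ : ℝ} (hC₀ : 0 ≤ C₀) (htm : TmC S C₀) {al : ℝ}
    {g₀ : ℝ → ℝ} (hal : 0 < al) (hg₀ : ∀ ε : ℝ, 0 < ε → 0 < g₀ ε) {N : ℚ → ℚ → ℝ}
    (hN : ActM N al g₀) {kap : Fin n} (hkap : (kap : ℕ) = 0) (hact : ActB N S kap) {b : ℝ}
    (hb0 : 0 < b) (hb1 : b < 1) {cL : ℝ} {p q : Fin n} {hu : p ∉ ({q} : Finset (Fin n))}
    {Ψ : ℕ → ∀ (J : ℕ) (F : Fam n J) (_ : F.Ω → Prop), (F.Ω → ℝ) → Prop}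
    (hD : ZReq S b kap cL (fun k : ℕ => ShX b hu (1 / ((k : ℝ) + 1)) (Ψ k))) (t : Fin n)
    (ch : ℕ → Fin n) {r : ℕ} (hr : 0 < r) {x₀ y₀ D₀ : ℚ}
    (h₀ : ∃ k : ℕ, ZPr S b (id : Fin n → Fin n) (ShX b hu (1 / ((k : ℝ) + 1)) (Ψ k))
      (fun J G A => ¬ DgN t x₀ y₀ D₀ J G A)) :
    ∃ (Sb : PCl n) (Pb : ℝ → ℝ → ℝ) (rb : ℝ → ℝ) (Pb' : ℕ → List (Fin n) × Fin n → ℝ → ℝ → ℝ)
      (Λb : Finset (Fin n) → Fin n → ℝ → ℝ → ℝ)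
      (PBb : ℕ → List (Fin n) × Fin n → ℝ → ℝ → ℝ), PkT hn Sb Pb rb Pb' Λb PBb ∧
      ShCl S Sb b hu Ψ t ch r ∧ ShCh S Sb b hu Ψ ch := by
  classical
  have hexp : ∀ (x : ℝ) (a b : ℝ), a ≤ Real.exp x * b ↔ Real.exp (-x) * a ≤ b := by
    intro x a b
    rw [Real.exp_neg, inv_mul_le_iff₀ (Real.exp_pos x)]
  let ι : Type := (ℚ × ℚ × ℚ) ⊕ ((ℕ × ℕ × ℚ × ℚ × ℚ) ⊕ ((ℕ × ℚ × ℚ × ℚ × ℚ × ℚ) ⊕
    ((Finset (Fin n) × Fin n × ℕ × ℕ × ℚ × ℚ × ℚ × ℚ) ⊕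
      ((Finset (Fin n) × Fin n × ℕ × ℚ × ℚ × ℚ × ℚ) ⊕ (ℕ × ℕ × ℕ × ℚ × ℚ × ℚ × ℚ)))))
  obtain ⟨Φ, hΦ⟩ : ∃ Φ : ι → Stat n, Φ = fun i => match i with
    | Sum.inl p => DgN t p.1 p.2.1 p.2.2
    | Sum.inr (Sum.inl p) => fun J G A => ∀ B : G.Ω → Prop, Sub B A →
        Pe G.p A ≤ Real.exp (1 / ((p.2.1 : ℝ) + 1) * J) * Pe G.p B →
        ¬ (tgs t).T () p.1 ⌊(p.2.2.1 : ℝ) * J⌋₊ ⌊(p.2.2.2.1 : ℝ) * J⌋₊
          ⌊(p.2.2.2.2 : ℝ) * J⌋₊ J G B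
    | Sum.inr (Sum.inr (Sum.inl p)) =>
        ChE ch r p.1 p.2.1 p.2.2.1 p.2.2.2.1 p.2.2.2.2.1 p.2.2.2.2.2
    | Sum.inr (Sum.inr (Sum.inr (Sum.inl p))) => fun J G A => ∀ B : G.Ω → Prop, Sub B A →
        Pe G.p A ≤ Real.exp (1 / ((p.2.2.2.1 : ℝ) + 1) * J) * Pe G.p B →
        ¬ Lf G p.1 (fun ω => G.x ω p.2.1) p.2.2.1 ⌊(p.2.2.2.2.1 : ℝ) * J⌋₊
          ⌊(p.2.2.2.2.2.1 : ℝ) * J⌋₊ ⌊(p.2.2.2.2.2.2.1 : ℝ) * J⌋₊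
          ⌊(p.2.2.2.2.2.2.2 : ℝ) * J⌋₊ B
    | Sum.inr (Sum.inr (Sum.inr (Sum.inr (Sum.inl p)))) =>
        LbN p.1 p.2.1 p.2.2.1 p.2.2.2.1 p.2.2.2.2.1 p.2.2.2.2.2.1 p.2.2.2.2.2.2
    | Sum.inr (Sum.inr (Sum.inr (Sum.inr (Sum.inr p)))) =>
        ChV (tht p.1) ch p.2.1 p.2.2.1 p.2.2.2.1 p.2.2.2.2.1 p.2.2.2.2.2.1
          p.2.2.2.2.2.2 := ⟨_, rfl⟩
  have hcount : Countable ι := inferInstance
  obtain ⟨Sb, Pb, rb, Pb', Λb, PBb, H, hcl⟩ := cls_ex hn hC₀ htm hal hg₀ hN hkap hact hb0 hb1 hD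
    (Φ := Φ) (by
      rw [hΦ]
      rintro (p | p | p | p | p | p)
      · exact upr_dig t _ _ _
      · exact upr_many t (fun J => Real.exp (1 / ((p.2.1 : ℝ) + 1) * J)) _
          (fun J => ⌊(p.2.2.1 : ℝ) * J⌋₊) (fun J => ⌊(p.2.2.2.1 : ℝ) * J⌋₊)
          (fun J => ⌊(p.2.2.2.2 : ℝ) * J⌋₊)
      · exact upr_chE ch r hr _ _ _ _ _ _
      · exact upr_lmn _ _ _ (fun J => Real.exp (1 / ((p.2.2.2.1 : ℝ) + 1) * J))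
          (fun J => ⌊(p.2.2.2.2.1 : ℝ) * J⌋₊) (fun J => ⌊(p.2.2.2.2.2.1 : ℝ) * J⌋₊)
          (fun J => ⌊(p.2.2.2.2.2.2.1 : ℝ) * J⌋₊) (fun J => ⌊(p.2.2.2.2.2.2.2 : ℝ) * J⌋₊)
      · exact GPr.upr fun J => gpr_lb _ _ _ _ _ _ _ _
      · exact upr_chv _ _ _ _ _ _ _ _)
    (Sum.inl (x₀, y₀, D₀)) (by
      rw [hΦ]
      exact h₀)
  rw [hΦ] at hcl
  refine ⟨Sb, Pb, rb, Pb', Λb, PBb, H, ⟨?_, ?_, ?_, ?_, ?_⟩, ⟨?_⟩⟩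
  · intro x y D h
    exact hcl (Sum.inl (x, y, D)) h
  · intro K j az wz Pz h
    obtain ⟨k, h⟩ := h
    refine (hcl (Sum.inr (Sum.inl (K, j, az, wz, Pz))) ⟨k, h.mono fun J G A h1 h2 => ?_⟩).mono 0
      fun J _ G A h1 => ?_
    · obtain ⟨B, k1, k2, k3⟩ := h1
      exact h2 B k1 ((hexp _ _ _).2 k2) k3
    · simp only at h1
      push Not at h1
      obtain ⟨B, k1, k2, k3⟩ := h1
      exact ⟨B, k1, (hexp _ _ _).1 k2, k3⟩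
  · intro K az wz E x Pz h
    exact hcl (Sum.inr (Sum.inr (Sum.inl (K, az, wz, E, x, Pz)))) h
  · intro I l K j E w ρ P h
    obtain ⟨k, h⟩ := h
    refine (hcl (Sum.inr (Sum.inr (Sum.inr (Sum.inl (I, l, K, j, E, w, ρ, P)))))
      ⟨k, h.mono fun J G A h1 h2 => ?_⟩).mono 0 fun J _ G A h1 => ?_
    · obtain ⟨B, k1, k2, k3⟩ := h1
      exact h2 B k1 ((hexp _ _ _).2 k2) k3
    · simp only at h1
      push Not at h1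
      obtain ⟨B, k1, k2, k3⟩ := h1
      exact ⟨B, k1, (hexp _ _ _).1 k2, k3⟩
  · intro I l K E w ρ P h
    exact hcl (Sum.inr (Sum.inr (Sum.inr (Sum.inr (Sum.inl (I, l, K, E, w, ρ, P)))))) h
  · intro j r K az wz x Pz h
    exact hcl (Sum.inr (Sum.inr (Sum.inr (Sum.inr (Sum.inr (j, r, K, az, wz, x, Pz)))))) h

end Pool.SHE33
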