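import Pool.Agent.H33.SHV.Vdo

/-!
# A static target and a target with slope one, `u` before the second contact coordinate

`lV0B_she`, `lV01_she`: the theorems `Pool.ASM.LV0B`, `LV01` need the windows with a thin `u` only with
the labels of the second contact coordinate over the first one.
-/

set_option autoImplicit false

namespace Pool.SHV33

open MeasureTheory Set Filter Topology
open Pool.Agent.H49.Ent Pool.Agent.H32.Dense Pool.STK Pool.KA Pool.KSAT Pool.K2S Pool.PB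
open Pool.GEN Pool.PKG Pool.S6C Pool.STAT Pool.CHT Pool.GRW Pool.ONE Pool.STA Pool.ALT Pool.LA91
open Pool.ASM
open Pool.TOP (TopS)
open Pool.STR (ThinAt SteepAt StaAt sta_of_pairs)

/-- **`LV0B 4`** from the void windows of a thin `u`. -/
theorem lV0B_of_p (H0 : (∀ k, 2 ≤ k → k < 4 → Ext0 k) → VdP (kg4 .one .thin .one .sta) NBt) :
    LV0B 4 := fun hi => by
  refine (Tol.le (1 / 2) (by norm_num)).mono fun η hη => ?_
  intro _ hn hZ hF hTop D hD hD1 _ S P r P' Λ PB H o
  have h1 := hη D hD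
  obtain ⟨h, hh⟩ : ∃ h, h = (1 - η D) * D := ⟨_, rfl⟩
  have h0 : 0 < h := by
    rw [hh]
    exact mul_pos (by linarith) hD
  have h1' : h ≤ 1 := by
    rw [hh]
    nlinarith
  rw [← hh]
  filter_upwards [H0 hi hn S P r P' Λ PB H hTop hF hZ h h0 h1' o,
    kg_all H hTop hF, kg_sta H hTop hF, sl_one H hTop hF, one_zero H hTop hF o,
    one_false H hTop hF]
    with g k1 k2 k3 k4 k5 k6 R hP hst hl1 hl2
  have ho := R.rwd.mem
  have e1 : LvL hn P P' o 1 = LL hn P P' o 2 := Pool.Z4.lvL_eq o (by norm_num)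
  have e2 : LvL hn P P' o 2 = LL hn P P' o 3 := Pool.Z4.lvL_eq o (by norm_num)
  have e3 : LvL hn P P' o 3 = P := lvL_last o
  rw [← e2] at hl1
  rw [← e1] at hl2 ⊢
  have c0 : KgAt hn P P' PB o 0 g .one := k5 ho
  have c2 : KgAt hn P P' PB o 2 g .one := le_antisymm hl1 (k4 o ho 2 (by norm_num))
  have c3 : KgAt hn P P' PB o 3 g .sta := k3 o ho 3 (by norm_num) (by rw [e3]; exact hst)
    (by rw [e3]; exact hP)
  obtain ⟨k, hk, c1⟩ := k2 o ho 1 (by norm_num)
  rcases k with _ | _ | _ | _ | _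
  · exact absurd (show deriv (fun a => LvL hn P P' o 1 a a) g = 1 from c1) hl2.ne'
  · exact (k1 R ⟨c0, c2, c1.1, c3.1⟩ (kg_casesx c0 c1 c2 c3)).elim
  · exact c1.2
  · exact (k6 o ho c0 c1.1 c1.2).elim
  · exact absurd rfl hk

/-- **`LV01 4`** from the cases at the window; `u` before the second contact coordinate is thin. -/
theorem lV01_of_p (hs : PartW 2 (kg4 .one .one .stp .one) N1s)
    (ht : PartW 2 (kg4 .one .one .thin .one) N1t)
    (ht' : (∀ k, 2 ≤ k → k < 4 → Ext0 k) → VdP (kg4 .one .thin .one .one) M1t) :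
    LV01 4 := by
  obtain ⟨ι₀, hc₀, Q₀, hQ₀, hh₀, H₀⟩ := part_two hs ht
  intro hi
  refine (Tol.le (1 / 2) (by norm_num)).mono fun η hη _ => ?_
  intro hn hZ hF hTop D hD hD1 _ S P r P' Λ PB H o
  have h1 := hη D hD
  obtain ⟨h, hh⟩ : ∃ h, h = (1 - η D) * D := ⟨_, rfl⟩
  have h0 : 0 < h := by
    rw [hh]
    exact mul_pos (by linarith) hD
  have h1' : h ≤ 1 := by
    rw [hh]
    nlinarith
  rw [← hh]
  filter_upwards [sta_kindsC hQ₀ H hTop hF h
    (fun κ _ => ∃ k : Kg, (k = .thin ∨ k = .stp) ∧ κ = kg4 .one .one k .one) (i := 2)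
    (by norm_num) (fun κ Sl k0 k1 _ => by
      obtain ⟨k, hk, rfl⟩ := k0
      rcases hk with rfl | rfl
      · exact ((H₀ h h0 h1' Sl).2 ⟨(k1 0 (by norm_num)).1 rfl, (k1 1 (by norm_num)).1 rfl,
          (k1 2 (by norm_num)).2.1 rfl, (k1 3 (by norm_num)).1 rfl⟩)
      · exact ((H₀ h h0 h1' Sl).1 ⟨(k1 0 (by norm_num)).1 rfl, (k1 1 (by norm_num)).1 rfl,
          (k1 2 (by norm_num)).2.2.2 rfl, (k1 3 (by norm_num)).1 rfl⟩)) o,
    ht' hi hn S P r P' Λ PB H hTop hF hZ h h0 h1' o,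
    kg_all H hTop hF, Pool.Z4.sta_zero H hTop hF o, sl_one H hTop hF, one_zero H hTop hF o,
    one_false H hTop hF]
    with g k1 k1' k2 k3 k4 k5 k6 R hP hex i hi'
  have ho := R.rwd.mem
  have e0 : ∀ l < 3, LvL hn P P' o l = LL hn P P' o (l + 1) := fun l hl =>
    Pool.Z4.lvL_eq o (by omega)
  have e3 : LvL hn P P' o 3 = P := lvL_last o
  have c0 : KgAt hn P P' PB o 0 g .one := k5 ho
  have c3 : KgAt hn P P' PB o 3 g .one := by
    show deriv (fun a => LvL hn P P' o 3 a a) g = 1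
    rw [e3]
    exact hP
  -- a coordinate of slope one is static
  have hone : ∀ l, 1 ≤ l → l < 3 → deriv (fun a => LvL hn P P' o l a a) g ≤ 1 →
      StaAt (LL hn P P' o (l + 1)) g := fun l hl1 hl hs => by
    rw [e0 l hl] at hs
    exact Pool.Z4.sta_one H hTop hF R.rwd (by omega) hs
  obtain ⟨j, hj1, hj, hs⟩ := hex
  have hj3 : j < 3 := by omega
  rw [← e0 j hj3] at hs
  rcases Nat.eq_zero_or_pos i with hi0 | hi0
  · rw [hi0]
    exact k3 ho
  by_cases hs' : deriv (fun a => LvL hn P P' o i a a) g ≤ 1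
  · exact hone i hi0 (by omega) hs'
  have hij : i ≠ j := fun h => hs' (h ▸ hs)
  push Not at hs'
  have cj : KgAt hn P P' PB o j g .one := le_antisymm hs (k4 o ho j (by omega))
  obtain ⟨k, hk, ci⟩ := k2 o ho i (by omega)
  rw [← e0 i (by omega)]
  have hk' : (k = .thin ∨ k = .stp) ∨ StaAt (LvL hn P P' o i) g := by
    rcases k with _ | _ | _ | _ | _
    · exact absurd (show deriv (fun a => LvL hn P P' o i a a) g = 1 from ci) hs'.ne'
    · exact Or.inl (Or.inl rfl)
    · exact Or.inr ci.2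
    · exact Or.inl (Or.inr rfl)
    · exact absurd rfl hk
  rcases hk' with hk' | hst
  swap
  · exact hst
  rcases (show (i = 2 ∧ j = 1) ∨ (i = 1 ∧ j = 2) by omega) with ⟨rfl, rfl⟩ | ⟨rfl, rfl⟩
  · refine k1 R (fun l : Fin 4 => kg4 .one .one k .one l) ⟨k, hk', kgX_four _ _ _ _⟩ fun l => ?_
    fin_cases l
    · exact c0
    · exact cj
    · exact ci
    · exact c3
  · rcases hk' with rfl | rfl
    · exact (k1' R ⟨c0, cj, ci.1, c3⟩ (kg_casesx c0 ci cj c3)).elim
    · exact (k6 o ho c0 ci.1 ci.2).elim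

/-- **`LV0B 4`**, from the windows with the labels. -/
theorem lV0B_she (H0 : VdA (kg4 .one .thin .one .sta) NBt) : LV0B 4 :=
  lV0B_of_p fun hi => vdP_she1 hi slW_nbt (Or.inr (Or.inr rfl)) H0

/-- **`LV01 4`**, from the windows with the labels. -/
theorem lV01_she (hs : PartW 2 (kg4 .one .one .stp .one) N1s)
    (ht : PartW 2 (kg4 .one .one .thin .one) N1t) (ht' : VdA (kg4 .one .thin .one .one) M1t) :
    LV01 4 :=
  lV01_of_p hs ht fun hi => vdP_she1 hi slW_m1t (Or.inl rfl) ht'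

/-- **`LV01 4` from its parts**, from the windows with the labels. -/
theorem lV01_she2 {Adm : (ℕ → ℝ) → AltJ → PropW 4} {β : (ℕ → ℝ) → ℝ} (H : Sh1 Adm β)
    (H' : VdA (kg4 .one .thin .one .one) M1t) : LV01 4 := by
  have hκ : ∀ l < 2, kg4 .one .one .stp .one l = .one := fun l hl => by
    interval_cases l <;> rfl
  exact lV01_she (CasP.rt Adm β (H.sA.cas (by norm_num) (by norm_num) hκ rfl
    fun Sl hS => hS.2.2.1) (H.sC.cas (by norm_num) (by norm_num) hκ rfl
    fun Sl hS => hS.2.2.1)) (H.tA.w H.tB) H'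

end Pool.SHV33
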