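import Pool.Agent.H33.SHV.Thc
import Pool.Agent.H33.SHE.Hoa

/-!
# The comparison of the thresholds of the place 1 near almost every good window

`t1_ae`: near almost every window, the coordinates of the base have no good closed labels in the second
class, with the rescaled bounds. `off1_ae`: the thresholds of the place 1 off the diagonal: those of
the second package are at most the rescaled ones.
-/

set_option autoImplicit false

namespace Pool.SHV33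

open MeasureTheory Set Filter Topology
open Pool.Agent.H49.Ent Pool.Agent.H32.Dense Pool.STK Pool.KA Pool.KSAT Pool.K2S Pool.PB
open Pool.GEN Pool.S6C Pool.STAT Pool.CHT Pool.GRW Pool.ONE Pool.STA Pool.PKG Pool.EXW
open Pool.ZCL Pool.ZLC Pool.ZCO
open Pool.LBT (LSys ThrOf)
open Pool.ALL (RateOf)
open Pool.TOP (T1c T2c TopS Ful RW)
open Pool.LBN (Tch cof cof_lt cof_ge)
open Pool.FRN (AttC)
open Pool.SHE3 (zs ShN0 OffB OffS two_acc ae_zs zs_pos zs_lt zs_le zs_one zs_lt_one zs_sub)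
open Pool.OWN72 (epo)
open Pool.SHE33

variable {hn : 2 ≤ 4} {S Sb : PCl 4} {P Pb : ℝ → ℝ → ℝ} {r rb : ℝ → ℝ}
  {P' Pb' : ℕ → List (Fin 4) × Fin 4 → ℝ → ℝ → ℝ} {Λ Λb : Finset (Fin 4) → Fin 4 → ℝ → ℝ → ℝ}
  {PB PBb : ℕ → List (Fin 4) × Fin 4 → ℝ → ℝ → ℝ} {o : Od 4} {b : ℝ}

/-- **No good closed labels in the second class** near almost every window. -/
theorem t1_ae (N : ShN0 hn o b r Λ rb Λb) (H : PkT hn S P r P' Λ PB)
    (Hb : PkT hn Sb Pb rb Pb' Λb PBb) (hTop : TopS 4) (hZ : ∀ k, 1 ≤ k → k < 4 → FZX k)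
    (hW : 3 ≤ 4 → Pool.TOP.RW (4 - 1)) :
    ∀ᵐ g : ℝ, b < g → g ∈ Gs P r P' Λ o → ∃ αb σb : ℝ, zs b g < αb ∧ αb ≤ 1 ∧ 0 ≤ σb ∧
      σb + tht o.2 < 1 ∧ T1c Sb (lst hn) αb σb := by
  classical
  have hb0 := N.b0
  have hb1 := N.b1
  have h01 : 0 < 1 - b := by linarith
  have hF : FZX (4 - 1) := hZ 3 (by norm_num) (by norm_num)
  have hbad : ∀ᵐ w : ℝ, w ∉ {w | ¬ ∀ l, ContinuousAt (dg (Pb' o.2) l) w} ∪
      {w | ¬ ContinuousAt (dgP Pb) w} := by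
    refine Set.Countable.ae_notMem ?_ _
    exact (dg_ae (Hb.cht o.2)).union (dgP_mono (Hb.tgs.law ())).countable_not_continuousAt
  obtain ⟨E, hE⟩ : ∃ E : Set ℝ, E = {g | b < g ∧ g ∈ Gs P r P' Λ o ∧
      zs b g ∈ Wp Λb (Pb' o.2) (fun i => bse (o.1.1 i)) ∧ ContinuousAt (dgP Pb) (zs b g) ∧
      ∀ l ≤ 3, Pool.GEN.vs Λb (epo hn o) (zs b g) l = zs b (Pool.GEN.vs Λ (epo hn o) g l)} :=
    ⟨_, rfl⟩
  filter_upwards [N.ctr H Hb hTop hF, N.vs H Hb hTop hF, ae_zs hb1 hbad, two_acc E] with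
    g h1 h2 h3 h4 hbg hg
  rw [Set.mem_union, not_or] at h3
  obtain ⟨c2, c3⟩ := h3
  simp only [Set.mem_ofPred_eq, not_not] at c2 c3
  obtain ⟨z0, z1, zg, zc⟩ := h1 hbg hg
  have hwp : zs b g ∈ Wp Λb (Pb' o.2) (fun i => bse (o.1.1 i)) := ⟨⟨z0, z1, zg, zc⟩, c2⟩
  have hgE : g ∈ E := by
    rw [hE]
    exact ⟨hbg, hg, hwp, c3, h2 hbg hg⟩
  -- the facts of the first class
  have hg' := hg
  obtain ⟨hW', ⟨a₁, k1, k2, k3⟩, hcP⟩ := hg'
  have hg0 : 0 < g := hb0.trans hbg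
  have hg1 : g < 1 := hW'.1.2.1
  obtain ⟨Q, hQ⟩ : ∃ Q, Q = P a₁ a₁ := ⟨_, rfl⟩
  obtain ⟨c, hc⟩ : ∃ c, c = 1 - P a₁ a₁ - (r 1 - r (P a₁ a₁)) := ⟨_, rfl⟩
  rw [← hc] at k3
  have hth := tht_pos o.2
  have hc0 : 0 < c := hth.trans k3
  have hQ1 : Q ≤ 1 - c := Pool.TOP.q_le H.rate hc0 (by rw [hc, hQ])
  have hlaw := H.tgs.law ()
  have haQ : a₁ ≤ Q := by
    rw [hQ]
    exact H.tgs.low () a₁ a₁ (by linarith) le_rfl k2
  have hPQ : P g g < Q := by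
    have h5 := hlaw.slope g g (a₁ - g) hg0.le le_rfl (by linarith) (by linarith)
    rw [show g + (a₁ - g) = a₁ by ring] at h5
    have h6 := hlaw.mono_w a₁ g a₁ hg0.le k1.le le_rfl k2
    rw [← hQ] at h6
    rcases min_le_iff.1 h5 with h7 | h7
    · linarith
    · linarith
  obtain ⟨α, hα⟩ : ∃ α, α = (g + a₁) / 2 := ⟨_, rfl⟩
  have hgα : g < α := by rw [hα]; linarith
  have hαa : α < a₁ := by rw [hα]; linarith
  obtain ⟨al, g₀, s, d, e, K₀, N', hal, hg₀, hC⟩ := H.cl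
  obtain ⟨ht1, -⟩ := hTop hn al g₀ s d hal hg₀ e K₀ N' S hC P r H.tgs H.rate α a₁ Q c
    (hg0.trans hgα).le hαa k2 hQ.ge hc0 (by rw [hc, hQ])
  -- a good window above
  obtain ⟨g', hg'E, hgg', hg'α⟩ := (h4 hgE (α - g) (by linarith)).1
  rw [hE] at hg'E
  obtain ⟨hbg', hg'G, hwp', -, hvs'⟩ := hg'E
  have hg'1 : g' < 1 := hg'G.1.1.2.1
  have htop : Pool.GEN.vs Λ (epo hn o) g' 3 ≤ 1 - c := by
    have h5 := gs_lvl H.toPk hTop hF hg'G (l := 2) (by norm_num)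
    rw [LvL_lt o (by norm_num)] at h5
    rw [show (3 : ℕ) = 2 + 1 from rfl, ← h5]
    exact Pool.TOP.t1n ht1 H.ne (H.cht o.2) hth H.tmh (by linarith) (by linarith) (by linarith) 2
      ((cc_inj hn o.1.1).mono fun x hx => by
        rw [Set.mem_Iio] at hx ⊢
        omega) (fun j hj => cc_ne hn _ (by omega)) g' g' (by linarith) le_rfl (by linarith)
  have hσ1 : zs b (1 - c) < 1 := (zs_lt_one hb1).2 (by linarith)
  have hcD : 1 - zs b (1 - c) ≤ 1 - zs b Q - (rb 1 - rb (zs b Q)) := by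
    have e2 := N.hr Q 1 (by linarith) (by linarith) le_rfl
    rw [zs_one hb1] at e2
    have e3 := zs_sub b 1 (1 - c)
    have e4 := zs_sub b 1 Q
    rw [zs_one hb1] at e3 e4
    have e5 : (1 - (1 - c)) / (1 - b) = (1 - Q) / (1 - b) - (r 1 - r Q) / (1 - b) := by
      rw [← sub_div, hc, hQ]
      congr 1
      ring
    linarith
  obtain ⟨αb, hαb⟩ : ∃ αb, αb = zs b ((g + g') / 2) := ⟨_, rfl⟩
  have hα1 : zs b g < αb := by rw [hαb]; exact (zs_lt hb1).2 (by linarith)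
  have hα2 : αb < zs b g' := by rw [hαb]; exact (zs_lt hb1).2 (by linarith)
  have hg'z : zs b g' < 1 := (zs_lt_one hb1).2 hg'1
  obtain ⟨t1, t2⟩ := t12_win Hb.toPk hZ hW (w := zs b g') hwp'.1 (σ := zs b (1 - c))
    (α := αb) (Q := zs b Q) (by
      have h5 := hvs' 3 le_rfl
      have h6 : Pool.GEN.vs Λb (fun i => bse (o.1.1 i)) (zs b g') (4 - 1) =
        zs b (Pool.GEN.vs Λ (epo hn o) g' 3) := h5
      rw [h6]
      exact (zs_le hb1).2 htop) hσ1 (by linarith) hα2 ((zs_le hb1).2 (by linarith)) hcD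
  have hσθ : zs b (1 - c) + tht o.2 < 1 := by
    have e3 := zs_sub b 1 (1 - c)
    rw [zs_one hb1] at e3
    have e5 : tht o.2 < (1 - (1 - c)) / (1 - b) := by
      rw [lt_div_iff₀ h01]
      have : tht o.2 * (1 - b) ≤ tht o.2 * 1 := mul_le_mul_of_nonneg_left (by linarith) hth.le
      linarith
    linarith
  exact ⟨αb, zs b (1 - c), hα1, by linarith, ((zs_pos hb1).2 (by linarith)).le, hσθ, t1⟩

/-- The comparison of the thresholds near a window: the upper bound. -/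
def OffL (b : ℝ) (P Pb : ℝ → ℝ → ℝ) (g : ℝ) : Prop :=
  ∃ δ : ℝ, 0 < δ ∧ ∀ a a' w w' : ℝ, g - δ < w → w < w' → w ≤ a → w' ≤ a' → a < a' →
    a' < g + δ → Pb (zs b a) (zs b w) ≤ zs b (P a' w')

theorem OffL.off {P Pb : ℝ → ℝ → ℝ} {g : ℝ} (h : OffL b P Pb g) : OffS b P Pb g := by
  obtain ⟨δ, hδ, h1⟩ := h
  exact ⟨δ, hδ, fun a a' w w' k1 k2 k3 k4 k5 => h1 a a' w w' k1 k2 (by linarith) (by linarith)
    k4 k5⟩

/-- **The thresholds of the place 1** of the second package. -/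
theorem off1_ae (N : ShN0 hn o b r Λ rb Λb) (H : PkT hn S P r P' Λ PB)
    (Hb : PkT hn Sb Pb rb Pb' Λb PBb) (hTop : TopS 4) (hZ : ∀ k, 1 ≤ k → k < 4 → FZX k)
    (hW : 3 ≤ 4 → Pool.TOP.RW (4 - 1)) {p q : Fin 4} {hu : p ∉ ({q} : Finset (Fin 4))}
    (hq : ∀ i < 2, cc hn o.1.1 i ≠ q)
    {Ψ : ℕ → ∀ (J : ℕ) (F : Fam 4 J) (_ : F.Ω → Prop), (F.Ω → ℝ) → Prop}
    (hch : ShCh S Sb b hu Ψ (cc hn o.1.1)) :
    ∀ᵐ g : ℝ, b < g → g ∈ Gs P r P' Λ o → OffL b (LvL hn P P' o 1) (LvL hn Pb Pb' o 1) g := by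
  filter_upwards [t1_ae N H Hb hTop hZ hW] with g h1 hbg hg
  obtain ⟨αb, σb, k1, k2, k3, k4, k5⟩ := h1 hbg hg
  have hb1 := N.b1
  have h01 : 0 < 1 - b := by linarith
  have hα : g < b + αb * (1 - b) := by
    have h2 := zs_mul hb1 g
    have := mul_lt_mul_of_pos_right k1 h01
    linarith
  refine ⟨min (g - b) (b + αb * (1 - b) - g), lt_min (by linarith) (by linarith),
    fun a a' w w' q1 q2 q3 q4 q5 q6 => ?_⟩
  have m1 := min_le_left (g - b) (b + αb * (1 - b) - g)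
  have m2 := min_le_right (g - b) (b + αb * (1 - b) - g)
  rw [LvL_lt o (by norm_num), LvL_lt o (by norm_num)]
  refine thr_chv H.toPk Hb.toPk N.b0 hb1 hch o.2 1 ((cc_inj hn o.1.1).mono fun x hx => by
    rw [Set.mem_Iio] at hx ⊢
    omega) hq k2 (fun i hi a w e1 e2 e3 => ?_) k4 (by linarith) q2 q3 q4 q5 ?_
  · exact Pool.TOP.t1n k5 Hb.ne (Hb.cht o.2) (tht_pos _) Hb.tmh k2 k3 k4 i
      ((cc_inj hn o.1.1).mono fun x hx => by
        rw [Set.mem_Iio] at hx ⊢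
        omega) (fun j hj => cc_ne hn _ (by omega)) a w e1 e2 e3
  · have h3 : a' < b + αb * (1 - b) := by linarith
    have h4 : zs b a' < zs b (b + αb * (1 - b)) := (zs_lt hb1).2 h3
    have h5 : zs b (b + αb * (1 - b)) = αb := by
      unfold Pool.SHE3.zs
      field_simp
      ring
    rwa [h5] at h4

end Pool.SHV33
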