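import Pool.Agent.H33.SHE.Sht

/-!
# The second package for a set of windows, with its class

`ShP`: the second package behind the window `b`: its class has the properties of the sheared zooms,
its numbers are those of the first one. `shp_set`: it exists for a set of windows where the third
coordinate has closed labels after the shear; it has its labels over the first one there.
-/

set_option autoImplicit false

namespace Pool.SHV33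

open MeasureTheory Set Filter Topology
open Pool.Agent.H49.Ent Pool.Agent.H32.Dense Pool.STK Pool.KA Pool.KSAT Pool.K2S Pool.PB
open Pool.GEN Pool.S6C Pool.STAT Pool.CHT Pool.GRW Pool.ONE Pool.STA Pool.PKG Pool.EXW
open Pool.ZCL Pool.ZLC Pool.ZCO Pool.ASM
open Pool.LBT (LSys ThrOf)
open Pool.ALL (RateOf)
open Pool.TOP (T1c T2c TopS Ful RW)
open Pool.AT66 (AtS ats_ae)
open Pool.OWN17 (Gdw)
open Pool.SHE3 (zs ShN ShN0 OffB shN_of zs_le)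
open Pool.SHE33

variable {hn : 2 ≤ 4} {S : PCl 4} {P : ℝ → ℝ → ℝ} {r : ℝ → ℝ}
  {P' : ℕ → List (Fin 4) × Fin 4 → ℝ → ℝ → ℝ} {Λ : Finset (Fin 4) → Fin 4 → ℝ → ℝ → ℝ}
  {PB : ℕ → List (Fin 4) × Fin 4 → ℝ → ℝ → ℝ}

/-- The coordinate `p` is sheared along another one. -/
theorem cc_hu (hn : 2 ≤ 4) (o : Od 4) : cc hn o.1.1 1 ∉ ({cc hn o.1.1 2} : Finset (Fin 4)) := by
  rw [Finset.mem_singleton]
  intro h
  have := cc_inj' hn o.1.1 (i := 1) (j := 2) (by omega) (by omega) h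
  omega

/-- **The thresholds of the target** of the second package. -/
theorem offB_cls {Sb : PCl 4} {Pb : ℝ → ℝ → ℝ} {rb : ℝ → ℝ}
    {Pb' : ℕ → List (Fin 4) × Fin 4 → ℝ → ℝ → ℝ} {Λb : Finset (Fin 4) → Fin 4 → ℝ → ℝ → ℝ}
    {PBb : ℕ → List (Fin 4) × Fin 4 → ℝ → ℝ → ℝ} {o : Od 4} {b : ℝ}
    (H : PkT hn S P r P' Λ PB) (Hb : PkT hn Sb Pb rb Pb' Λb PBb) (hTop : TopS 4)
    (hZ : ∀ k, 1 ≤ k → k < 4 → FZX k) (hW : 3 ≤ 4 → Pool.TOP.RW (4 - 1))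
    (hb0 : 0 < b) (hb1 : b < 1) {hu : cc hn o.1.1 1 ∉ ({cc hn o.1.1 2} : Finset (Fin 4))}
    {Ψ : ℕ → ∀ (J : ℕ) (F : Fam 4 J) (_ : F.Ω → Prop), (F.Ω → ℝ) → Prop}
    (hcl : ShCl S Sb b hu Ψ (lst hn) (cc hn o.1.1) 4) :
    ∀ᵐ g : ℝ, b < g → g ∈ Gs P r P' Λ o → OffB b P Pb g := by
  have N := shn0_of H Hb hb0 hb1 hcl
  refine off_ae N H Hb hTop hZ hW hu ?_ ?_ ?_
  · intro i hi h
    have h1 : i = 2 := cc_inj' hn o.1.1 (by omega) (by omega) h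
    exact ⟨1, by omega, rfl⟩
  · intro K j az wz Pz h
    exact hcl.tmn K j az wz Pz (zr_ex h Ψ)
  · intro K az wz E x Pz h
    exact hcl.che K az wz E x Pz (zr_ex h Ψ)

/-- **The second package for a set of windows**, with its class. -/
theorem shp_set (H : PkT hn S P r P' Λ PB) (hTop : TopS 4)
    (hZ : ∀ k, 1 ≤ k → k < 4 → FZX k) (hW : 3 ≤ 4 → Pool.TOP.RW (4 - 1)) (o : Od 4) {b : ℝ}
    (hb0 : 0 < b) (hb1 : b < 1) (hG : Gdw Λ (cc hn o.1.1 0) (cc hn o.1.1 1) (cc hn o.1.1 2) b)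
    {V : Set ℝ} (hne : V.Nonempty) (hV : ∀ g ∈ V, b < g ∧ g < 1 ∧
      LvL hn P P' o 2 g g ≤ 1 ∧ AtS S (cc hn o.1.1 0) (cc hn o.1.1 1) (cc hn o.1.1 2) b
        (Λ {cc hn o.1.1 0, cc hn o.1.1 1} (cc hn o.1.1 2) b b) g (LvL hn P P' o 2 g g)) :
    ∃ (Sb : PCl 4) (Pb : ℝ → ℝ → ℝ) (rb : ℝ → ℝ) (Pb' : ℕ → List (Fin 4) × Fin 4 → ℝ → ℝ → ℝ)
      (Λb : Finset (Fin 4) → Fin 4 → ℝ → ℝ → ℝ) (PBb : ℕ → List (Fin 4) × Fin 4 → ℝ → ℝ → ℝ)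
      (Ψ : ℕ → ∀ (J : ℕ) (F : Fam 4 J) (_ : F.Ω → Prop), (F.Ω → ℝ) → Prop),
      PkT hn Sb Pb rb Pb' Λb PBb ∧
      ShCl S Sb b (cc_hu hn o) Ψ (lst hn) (cc hn o.1.1) 4 ∧
      ShN hn o b P r P' Λ Pb rb Pb' Λb ∧
      (∀ᵐ g : ℝ, b < g → g ∈ Gs P r P' Λ o → OffB b P Pb g) ∧
      ∀ w ∈ V, ∀ w' ρ : ℝ, w < w' → w' < 1 → b < ρ → ρ < 1 → zs b (LvL hn P P' o 2 w w) ≤
        Λb ((Finset.range 1).image (cc hn o.1.1)) (cc hn o.1.1 2) (zs b w') (zs b ρ) := by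
  obtain ⟨D, hD, hDV, h⟩ := rdense V
  have hDne : D.Nonempty := by
    obtain ⟨w, hw⟩ := hne
    obtain ⟨d, hd, -, -⟩ := h w hw (w + 1) (by linarith)
    exact ⟨d, hd⟩
  obtain ⟨ws, es, Ds, h1, h2, h3⟩ := lst_err hD hDne (fun g => LvL hn P P' o 2 g g)
  obtain ⟨Sb, Pb, rb, Pb', Λb, PBb, Hb, hcl⟩ := she_pkg H o hb0 hb1 hG (cc_hu hn o)
    (ws := ws) (es := es) (Ds := Ds) h1 fun i => by
    rw [(h2 i).2]
    exact (hV _ (hDV (h2 i).1)).2.2.2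
  refine ⟨Sb, Pb, rb, Pb', Λb, PBb, _, Hb, hcl, shn_cls H Hb hTop hZ hW hb0 hb1 hcl,
    offB_cls H Hb hTop hZ hW hb0 hb1 hcl, fun w hw w' ρ hww' hw'1 hρ0 hρ1 => ?_⟩
  obtain ⟨hbw, hw1, -, -⟩ := hV w hw
  obtain ⟨d, hd, hwd, hdw'⟩ := h w hw w' hww'
  obtain ⟨k1, k2, k3, -⟩ := hV d (hDV hd)
  have h4 := num_lst H Hb hb0 hb1 hcl (w := d) (D := LvL hn P P' o 2 d d)
    (fun e he => h3 d hd e he) k1.le k3 hdw' hw'1 hρ0 hρ1
  have h5 : LvL hn P P' o 2 w w ≤ LvL hn P P' o 2 d d :=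
    ((H.lawL o 2).mono_a w d w (by linarith) le_rfl hwd (by linarith)).trans
      ((H.lawL o 2).mono_w d w d (by linarith) hwd le_rfl (by linarith))
  exact ((zs_le hb1).2 h5).trans h4

end Pool.SHV33
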