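import Pool.Agent.H33.SHV.Cl2
import Pool.Agent.H33.SHV.Sup

/-!
# The second package, with the chain labels of its class
-/

set_option autoImplicit false

namespace Pool.SHE33

open MeasureTheory Set Filter Topology
open Pool.Agent.H49.Ent Pool.Agent.H32.Dense Pool.STK Pool.KA Pool.KSAT Pool.K2S Pool.PB
open Pool.GEN Pool.S6C Pool.STAT Pool.CHT Pool.GRW Pool.ONE Pool.STA Pool.PKG Pool.EXW
open Pool.ZCL Pool.ZLC Pool.ZCO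
open Pool.LBT (LSys ThrOf)
open Pool.ALL (RateOf)
open Pool.TOP (T1c T2c TopS Ful RW)
open Pool.AT66 (AtS ats_lst)
open Pool.OWN17 (Gdw)
open Pool.OWN72 (gs_act)

/-- **The package behind the window** `b`, with the chain labels. -/
theorem she_pkgc {hn : 2 ≤ 4} {S : PCl 4} {P : ℝ → ℝ → ℝ} {r : ℝ → ℝ}
    {P' : ℕ → List (Fin 4) × Fin 4 → ℝ → ℝ → ℝ} {Λ : Finset (Fin 4) → Fin 4 → ℝ → ℝ → ℝ}
    {PB : ℕ → List (Fin 4) × Fin 4 → ℝ → ℝ → ℝ} (H : PkT hn S P r P' Λ PB) (o : Od 4) {b : ℝ}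
    (hb0 : 0 < b) (hb1 : b < 1) (hG : Gdw Λ (cc hn o.1.1 0) (cc hn o.1.1 1) (cc hn o.1.1 2) b)
    (hu : cc hn o.1.1 1 ∉ ({cc hn o.1.1 2} : Finset (Fin 4))) {ws es Ds : ℕ → ℝ}
    (he : ∀ i, 0 < es i)
    (h : ∀ i, AtS S (cc hn o.1.1 0) (cc hn o.1.1 1) (cc hn o.1.1 2) b
      (Λ {cc hn o.1.1 0, cc hn o.1.1 1} (cc hn o.1.1 2) b b) (ws i) (Ds i)) :
    ∃ (Sb : PCl 4) (Pb : ℝ → ℝ → ℝ) (rb : ℝ → ℝ) (Pb' : ℕ → List (Fin 4) × Fin 4 → ℝ → ℝ → ℝ)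
      (Λb : Finset (Fin 4) → Fin 4 → ℝ → ℝ → ℝ)
      (PBb : ℕ → List (Fin 4) × Fin 4 → ℝ → ℝ → ℝ), PkT hn Sb Pb rb Pb' Λb PBb ∧
      ShCl S Sb b hu (PsL (cc hn o.1.1 0) (cc hn o.1.1 1) (cc hn o.1.1 2) ws es Ds)
        (lst hn) (cc hn o.1.1) 4 ∧
      ShCh S Sb b hu (PsL (cc hn o.1.1 0) (cc hn o.1.1 1) (cc hn o.1.1 2) ws es Ds)
        (cc hn o.1.1) := by
  obtain ⟨al, g₀, s, d, e, K₀, N, hal, hg₀, hC⟩ := H.cl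
  have hne : ∀ i j : ℕ, i ≤ 3 → j ≤ 3 → i ≠ j → cc hn o.1.1 i ≠ cc hn o.1.1 j := by
    intro i j hi hj hij h
    exact hij (cc_inj' hn o.1.1 (by omega) (by omega) h)
  have hl3 : lst hn = cc hn o.1.1 3 := (cc_ge hn o.1.1 (by omega)).symm
  have h6 : (0 : ℝ) ≤ 6 := by norm_num
  have h1 : cc hn o.1.1 0 = bse (o.1.1 ⟨0, by omega⟩) := cc_lt hn _ (by omega)
  have h0 : ((cc hn o.1.1 0 : Fin 4) : ℕ) = 0 := by
    rw [h1]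
    exact o.1.2 _ rfl
  have hD := zreq_ats hC.ne h6 H.tmc H.lam (hne 0 1 (by omega) (by omega) (by omega))
    (hne 0 2 (by omega) (by omega) (by omega)) hu (gs_act H.toPk o) hG he h
  exact shcl_exc hn h6 H.tmc hal hg₀ hC.actm h0 (hC.actb _ h0) hb0 hb1 hD (lst hn)
    (cc hn o.1.1) (r := 4) (by norm_num) (x₀ := 0) (y₀ := 0) (D₀ := 1)
    (dig_cls H.tmc H.rate hb0.le hb1 (by rw [hl3]; exact hne 3 2 le_rfl (by omega) (by omega))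
      (by rw [hl3]; exact hne 3 1 le_rfl (by omega) (by omega)) le_rfl le_rfl (by norm_num)
      (by
        have e1 : (r (b + ((0 : ℚ) : ℝ) * (1 - b)) - r (b + ((0 : ℚ) : ℝ) * (1 - b))) /
          (1 - b) = 0 := by rw [sub_self, zero_div]
        rw [e1]
        norm_num))

end Pool.SHE33

namespace Pool.SHV33

open MeasureTheory Set Filter Topology
open Pool.Agent.H49.Ent Pool.Agent.H32.Dense Pool.STK Pool.KA Pool.KSAT Pool.K2S Pool.PB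
open Pool.GEN Pool.S6C Pool.STAT Pool.CHT Pool.GRW Pool.ONE Pool.STA Pool.PKG Pool.EXW
open Pool.ZCL Pool.ZLC Pool.ZCO Pool.ASM
open Pool.LBT (LSys ThrOf)
open Pool.ALL (RateOf)
open Pool.TOP (T1c T2c TopS Ful RW)
open Pool.AT66 (AtS ats_ae)
open Pool.OWN17 (Gdw)
open Pool.SHE3 (zs ShN ShN0 OffB shN_of zs_le)
open Pool.SHE33

variable {hn : 2 ≤ 4} {S : PCl 4} {P : ℝ → ℝ → ℝ} {r : ℝ → ℝ}
  {P' : ℕ → List (Fin 4) × Fin 4 → ℝ → ℝ → ℝ} {Λ : Finset (Fin 4) → Fin 4 → ℝ → ℝ → ℝ}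
  {PB : ℕ → List (Fin 4) × Fin 4 → ℝ → ℝ → ℝ}

/-- **The second package for a set of windows**, with its class and the chain labels. -/
theorem shp_setc (H : PkT hn S P r P' Λ PB) (hTop : TopS 4)
    (hZ : ∀ k, 1 ≤ k → k < 4 → FZX k) (hW : 3 ≤ 4 → Pool.TOP.RW (4 - 1)) (o : Od 4) {b : ℝ}
    (hb0 : 0 < b) (hb1 : b < 1) (hG : Gdw Λ (cc hn o.1.1 0) (cc hn o.1.1 1) (cc hn o.1.1 2) b)
    {V : Set ℝ} (hne : V.Nonempty) (hV : ∀ g ∈ V, b < g ∧ g < 1 ∧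
      LvL hn P P' o 2 g g ≤ 1 ∧ AtS S (cc hn o.1.1 0) (cc hn o.1.1 1) (cc hn o.1.1 2) b
        (Λ {cc hn o.1.1 0, cc hn o.1.1 1} (cc hn o.1.1 2) b b) g (LvL hn P P' o 2 g g)) :
    ∃ (Sb : PCl 4) (Pb : ℝ → ℝ → ℝ) (rb : ℝ → ℝ) (Pb' : ℕ → List (Fin 4) × Fin 4 → ℝ → ℝ → ℝ)
      (Λb : Finset (Fin 4) → Fin 4 → ℝ → ℝ → ℝ) (PBb : ℕ → List (Fin 4) × Fin 4 → ℝ → ℝ → ℝ)
      (Ψ : ℕ → ∀ (J : ℕ) (F : Fam 4 J) (_ : F.Ω → Prop), (F.Ω → ℝ) → Prop),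
      PkT hn Sb Pb rb Pb' Λb PBb ∧
      ShCl S Sb b (cc_hu hn o) Ψ (lst hn) (cc hn o.1.1) 4 ∧
      ShCh S Sb b (cc_hu hn o) Ψ (cc hn o.1.1) ∧
      ShN hn o b P r P' Λ Pb rb Pb' Λb ∧
      (∀ᵐ g : ℝ, b < g → g ∈ Gs P r P' Λ o → OffB b P Pb g) ∧
      ∀ w ∈ V, ∀ w' ρ : ℝ, w < w' → w' < 1 → b < ρ → ρ < 1 → zs b (LvL hn P P' o 2 w w) ≤
        Λb ((Finset.range 1).image (cc hn o.1.1)) (cc hn o.1.1 2) (zs b w') (zs b ρ) := by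
  obtain ⟨D, hD, hDV, h⟩ := rdense V
  have hDne : D.Nonempty := by
    obtain ⟨w, hw⟩ := hne
    obtain ⟨d, hd, -, -⟩ := h w hw (w + 1) (by linarith)
    exact ⟨d, hd⟩
  obtain ⟨ws, es, Ds, h1, h2, h3⟩ := lst_err hD hDne (fun g => LvL hn P P' o 2 g g)
  obtain ⟨Sb, Pb, rb, Pb', Λb, PBb, Hb, hcl, hch⟩ := she_pkgc H o hb0 hb1 hG (cc_hu hn o)
    (ws := ws) (es := es) (Ds := Ds) h1 fun i => by
    rw [(h2 i).2]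
    exact (hV _ (hDV (h2 i).1)).2.2.2
  refine ⟨Sb, Pb, rb, Pb', Λb, PBb, _, Hb, hcl, hch, shn_cls H Hb hTop hZ hW hb0 hb1 hcl,
    offB_cls H Hb hTop hZ hW hb0 hb1 hcl, fun w hw w' ρ hww' hw'1 hρ0 hρ1 => ?_⟩
  obtain ⟨hbw, hw1, -, -⟩ := hV w hw
  obtain ⟨d, hd, hwd, hdw'⟩ := h w hw w' hww'
  obtain ⟨k1, k2, k3, -⟩ := hV d (hDV hd)
  have h4 := num_lst H Hb hb0 hb1 hcl (w := d) (D := LvL hn P P' o 2 d d)
    (fun e he => h3 d hd e he) k1.le k3 hdw' hw'1 hρ0 hρ1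
  have h5 : LvL hn P P' o 2 w w ≤ LvL hn P P' o 2 d d :=
    ((H.lawL o 2).mono_a w d w (by linarith) le_rfl hwd (by linarith)).trans
      ((H.lawL o 2).mono_w d w d (by linarith) hwd le_rfl (by linarith))
  exact ((zs_le hb1).2 h5).trans h4

end Pool.SHV33
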