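import Pool.Agent.H33.SHV.Su2

/-!
# The thresholds of the chains which are not sheared

`thr_chv`: in the class of the sheared zooms, the thresholds of the chains of coordinates which are not
sheared are at most the rescaled thresholds of the class, off the diagonal.
-/

set_option autoImplicit false

namespace Pool.SHE33

open MeasureTheory Set Filter Topology
open Pool.Agent.H49.Ent Pool.Agent.H32.Dense Pool.STK Pool.KA Pool.KSAT Pool.K2S Pool.PB
open Pool.GEN Pool.S6C Pool.STAT Pool.CHT Pool.GRW Pool.ONE Pool.STA Pool.PKG Pool.EXW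
open Pool.ZCL Pool.ZLC Pool.ZCO
open Pool.LBT (LSys ThrOf)
open Pool.TOP (T1c T2c TopS Ful RW)
open Pool.SHE3 (zs zs_lt zs_le zs_one zs_self zs_pos zs_lt_one zs_le_one zs_sub zs_mono)

variable {n : ℕ} {hn : 2 ≤ n} {S Sb : PCl n} {P Pb : ℝ → ℝ → ℝ} {r rb : ℝ → ℝ}
  {P' Pb' : ℕ → List (Fin n) × Fin n → ℝ → ℝ → ℝ} {Λ Λb : Finset (Fin n) → Fin n → ℝ → ℝ → ℝ}

/-- **The thresholds of the chains which are not sheared.** -/
theorem thr_chv (H : Pk hn S P r P' Λ) (Hb : Pk hn Sb Pb rb Pb' Λb) {b : ℝ} (hb0 : 0 < b)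
    (hb1 : b < 1) {p q : Fin n} {hu : p ∉ ({q} : Finset (Fin n))}
    {Ψ : ℕ → ∀ (J : ℕ) (F : Fam n J) (_ : F.Ω → Prop), (F.Ω → ℝ) → Prop} {c : ℕ → Fin n}
    (hch : ShCh S Sb b hu Ψ c) (j d : ℕ) (hinj : Set.InjOn c (Set.Iio (d + 1)))
    (hnq : ∀ i < d + 1, c i ≠ q) {αb σb : ℝ} (hα1 : αb ≤ 1)
    (hσ : ∀ i < d + 1, ∀ a w : ℝ, 0 < w → w ≤ a → a < αb → bet (Pb' j) c i a w ≤ σb)
    (hσθ : σb + tht j < 1) {a a' w w' : ℝ} (hbw : b < w) (hww' : w < w') (hwa : w ≤ a)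
    (hwa' : w' ≤ a') (haa' : a < a') (haα : zs b a' < αb) :
    bet (Pb' j) c d (zs b a) (zs b w) ≤ zs b (bet (P' j) c d a' w') := by
  classical
  have h01 : 0 < 1 - b := by linarith
  have hth := tht_pos j
  obtain ⟨θ, hθ⟩ : ∃ θ, θ = tht j := ⟨_, rfl⟩
  by_contra hcon
  push Not at hcon
  obtain ⟨za, hza⟩ : ∃ z, z = zs b a := ⟨_, rfl⟩
  obtain ⟨zw, hzw⟩ : ∃ z, z = zs b w := ⟨_, rfl⟩
  obtain ⟨za', hza'⟩ : ∃ z, z = zs b a' := ⟨_, rfl⟩
  obtain ⟨zw', hzw'⟩ : ∃ z, z = zs b w' := ⟨_, rfl⟩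
  rw [← hza, ← hzw] at hcon
  rw [← hza'] at haα
  have ra' : b + za' * (1 - b) = a' := by rw [hza']; exact zs_mul hb1 _
  have rw' : b + zw' * (1 - b) = w' := by rw [hzw']; exact zs_mul hb1 _
  have qa : za < za' := by rw [hza, hza']; exact (zs_lt hb1).2 haa'
  have qw : zw < zw' := by rw [hzw, hzw']; exact (zs_lt hb1).2 hww'
  have qwa : zw ≤ za := by rw [hza, hzw]; exact (zs_le hb1).2 hwa
  have qwa' : zw' ≤ za' := by rw [hza', hzw']; exact (zs_le hb1).2 hwa'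
  have hzw0 : 0 < zw := by rw [hzw]; exact (zs_pos hb1).2 hbw
  have hza1 : za' < 1 := by linarith
  have ha'1 : a' ≤ 1 := by
    rw [← ra']
    have := mul_le_mul_of_nonneg_right hza1.le h01.le
    linarith
  obtain ⟨V, hV⟩ : ∃ V, V = bet (Pb' j) c d za zw := ⟨_, rfl⟩
  obtain ⟨V₀, hV₀⟩ : ∃ V₀, V₀ = bet (P' j) c d a' w' := ⟨_, rfl⟩
  rw [← hV, ← hV₀] at hcon
  have hV1 : V ≤ 1 := by
    rw [hV]
    exact (Hb.cht j).up _ _ _ hzw0.le qwa (by linarith)
  have hV₀b : b < V₀ := by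
    have := (H.cht j).low ((List.range d).map c, c d) a' w' (by linarith) hwa' ha'1
    rw [hV₀]
    unfold bet
    linarith
  have hzV0 : 0 < zs b V₀ := (zs_pos hb1).2 hV₀b
  obtain ⟨Pz, Pz1, Pz2⟩ := exists_rat_btwn hcon
  obtain ⟨az, az1, az2⟩ := exists_rat_btwn qa
  obtain ⟨wz, wz1, wz2⟩ := exists_rat_btwn (show zw < min zw' az from
    lt_min qw (by linarith))
  have wz3 := wz2.trans_le (min_le_left _ _)
  have wz4 := wz2.trans_le (min_le_right _ _)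
  obtain ⟨h', hh'⟩ : ∃ h', h' = (1 - (σb + tht j)) / 3 := ⟨_, rfl⟩
  have hh'0 : 0 < h' := by rw [hh']; linarith
  obtain ⟨x, x1, x2⟩ := exists_rat_btwn (show (0 : ℝ) < 2 * h' by linarith)
  obtain ⟨K, hK⟩ := (Hb.cht j).att ((List.range d).map c, c d) za zw ((V - Pz) / 2) hzw0 qwa
    (by linarith) (by linarith) (by
      show (V - Pz) / 2 < bet (Pb' j) c d za zw
      rw [← hV]
      linarith)
  have hK' : Bas Sb (fun J F A => Cht (tht j) ((List.range d).map c) (c d) K ⌊za * J⌋₊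
      ⌊zw * J⌋₊ ⌊(V - (V - Pz) / 2) * J⌋₊ J F A) := by
    rw [hV]
    rw [hV] at hK
    exact hK
  have hno : Bas Sb (fun J F A => ∀ i < d + 1, ¬ Cht (tht j) ((List.range i).map c) (c i) K
      ⌊(az : ℝ) * J⌋₊ ⌊(wz : ℝ) * J⌋₊ ⌊(bet (Pb' j) c i za' zw' + h') * J⌋₊ J F A) := by
    refine Bas.all (d + 1) (Φ := fun i J F A => ¬ Cht (tht j) ((List.range i).map c) (c i) K
      ⌊(az : ℝ) * J⌋₊ ⌊(wz : ℝ) * J⌋₊ ⌊(bet (Pb' j) c i za' zw' + h') * J⌋₊ J F A)
      fun i hi => ?_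
    have h1 := hσ i hi za' zw' (by linarith) qwa' haα
    exact (Hb.cht j).no' ((List.range i).map c, c i) K (by linarith) (by linarith) az2 wz3 qwa'
      hza1.le hh'0 (by
        show bet (Pb' j) c i za' zw' + h' ≤ 1
        linarith)
  -- no labels of the class
  have raz : b + az * (1 - b) < a' := by
    have := mul_lt_mul_of_pos_right az2 h01
    linarith
  have rwz : b + wz * (1 - b) < w' := by
    have := mul_lt_mul_of_pos_right wz3 h01
    linarith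
  have rwa : b + wz * (1 - b) < b + az * (1 - b) := by
    have := mul_lt_mul_of_pos_right wz4 h01
    linarith
  obtain ⟨aS, haS⟩ : ∃ aS, aS = ((b + az * (1 - b)) + a') / 2 := ⟨_, rfl⟩
  obtain ⟨wS, hwS⟩ : ∃ wS, wS = min (((b + wz * (1 - b)) + w') / 2) aS := ⟨_, rfl⟩
  have s1 : b + az * (1 - b) < aS := by rw [haS]; linarith
  have s2 : aS < a' := by rw [haS]; linarith
  have s3 : b + wz * (1 - b) < wS := by rw [hwS]; exact lt_min (by linarith) (by linarith)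
  have s4 : wS < w' := by
    rw [hwS]
    exact (min_le_left _ _).trans_lt (by linarith)
  have s5 : wS ≤ aS := by rw [hwS]; exact min_le_right _ _
  have hPzS : V₀ < b + Pz * (1 - b) := by
    have h1 := zs_mul hb1 V₀
    have := mul_lt_mul_of_pos_right Pz1 h01
    linarith
  have hPz1' : b + Pz * (1 - b) ≤ 1 := by
    have := mul_le_mul_of_nonneg_right (show (Pz : ℝ) ≤ 1 by linarith) h01.le
    linarith
  obtain ⟨h, hh⟩ : ∃ h, h = ((b + Pz * (1 - b)) - V₀) / 2 := ⟨_, rfl⟩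
  have hh0 : 0 < h := by rw [hh]; linarith
  have hh1 : V₀ + h < b + Pz * (1 - b) := by rw [hh]; linarith
  have hwz0 : 0 < (wz : ℝ) := by linarith
  have hwzb : 0 < wz * (1 - b) := mul_pos hwz0 h01
  have h7 := zpr_chv (S := S) (C₀ := 6) H.tmc hb0 hb1 (p := p) (q := q) (hu := hu)
    (ch := c) (d := d) (K := K) hinj hnq (θ := tht j) hth.ne' (a := aS) (w := wS) (az := az)
    (wz := wz) (x := x) (P := V₀ + h) (Pz := Pz) s1 s3 (by linarith) hwz0.le x1 (by linarith)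
    (by linarith) hh1 (fun K' => by
      have h8 := (H.cht j).no' ((List.range d).map c, c d) K' (a := aS) (w := wS) (a' := a')
        (w' := w') (h := h) (by linarith) s5 s2 s4 hwa' ha'1 hh0 (by
          show bet (P' j) c d a' w' + h ≤ 1
          rw [← hV₀]
          linarith)
      rw [hV₀]
      exact h8)
  have h8 := hch.chv j d K az wz x Pz (zr_ex h7 Ψ)
  obtain ⟨τ, hτ, J₀, h9⟩ := (h8.and (hK'.and hno))
  obtain ⟨J, hJ, G, A, hA⟩ := Hb.ne τ hτ J₀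
  obtain ⟨k1, ⟨a₀, w₀, g, k2, k3, k4, k5, k6, k7⟩, k8⟩ := h9 J hJ G A hA
  have hJr : (0 : ℝ) ≤ J := Nat.cast_nonneg J
  have hlen : ((List.range d).map c).length = d := by simp
  rw [hlen] at k5 k6 k7
  have m1 : ⌊za * (J : ℝ)⌋₊ ≤ ⌊(az : ℝ) * J⌋₊ :=
    Nat.floor_le_floor (mul_le_mul_of_nonneg_right az1.le hJr)
  have m2 : ⌊zw * (J : ℝ)⌋₊ ≤ ⌊(wz : ℝ) * J⌋₊ :=
    Nat.floor_le_floor (mul_le_mul_of_nonneg_right wz1.le hJr)
  have m3 : ⌊za * (J : ℝ)⌋₊ ≤ J := by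
    refine Nat.floor_le_of_le ?_
    calc za * (J : ℝ) ≤ 1 * J := mul_le_mul_of_nonneg_right (by linarith) hJr
      _ = J := one_mul _
  have m4 : ⌊(Pz : ℝ) * J⌋₊ ≤ ⌊(V - (V - Pz) / 2) * J⌋₊ :=
    Nat.floor_le_floor (mul_le_mul_of_nonneg_right (by linarith) hJr)
  have k9 : ChN G c (d + 1) (fun _ => K) a₀ w₀ (lipE (tht j) K ⌊(wz : ℝ) * J⌋₊ J) g A := by
    refine ChN.congr (ChN.mono k7 le_rfl (fun _ _ => le_rfl) le_rfl le_rfl (by omega)
      (lipE_mono le_rfl m2)) (fun l hl => ?_) fun _ _ => rfl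
    rcases Nat.lt_or_ge l d with h2 | h2
    · simp [h2]
    · have e1 : l = d := by omega
      subst e1
      simp
  refine k1 ⟨a₀, w₀, g, k2, by omega, by omega, by omega, by omega, fun i hi =>
    ⟨k6 i (by omega), ?_⟩, k9⟩
  have h11 : g i ≤ ⌊(bet (Pb' j) c i za' zw' + h') * (J : ℝ)⌋₊ := by
    by_contra h12
    push Not at h12
    exact k8 i hi (Cht.of_chN (K₀ := K) (ChN.mono k9 (show i + 1 ≤ d + 1 by omega)
      (fun _ _ => le_rfl) le_rfl le_rfl (by omega) le_rfl) k2 (by omega) (by omega) (by omega)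
      (fun _ _ => le_rfl) le_rfl (fun l hl => k6 l (by omega)))
  have h13 := hσ i hi za' zw' (by linarith) qwa' haα
  have h14 : 0 ≤ bet (Pb' j) c i za' zw' := by
    have := (Hb.cht j).low ((List.range i).map c, c i) za' zw' (by linarith) qwa' hza1.le
    unfold bet
    linarith
  have h15 : (g i : ℝ) ≤ (bet (Pb' j) c i za' zw' + h') * J :=
    (Nat.cast_le.2 h11).trans (Nat.floor_le (mul_nonneg (by linarith) hJr))
  have h16 : (bet (Pb' j) c i za' zw' + h') * (J : ℝ) ≤ (σb + h') * J :=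
    mul_le_mul_of_nonneg_right (by linarith) hJr
  have h17 : (lipE (tht j) K ⌊(wz : ℝ) * J⌋₊ J : ℝ) ≤ tht j * J := by
    unfold lipE
    rw [abs_of_pos hth]
    have h18 : (⌊(wz : ℝ) * J⌋₊ : ℝ) ≤ J := by
      have h19 := Nat.floor_le (mul_nonneg hwz0.le hJr)
      have h20 : (wz : ℝ) * J ≤ 1 * J := mul_le_mul_of_nonneg_right (by linarith) hJr
      linarith
    have h21 : tht j * (⌊(wz : ℝ) * J⌋₊ : ℝ) - (J : ℝ) / ((K : ℝ) + 1) ≤ tht j * J := by
      have h22 := mul_le_mul_of_nonneg_left h18 hth.le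
      have h23 : 0 ≤ (J : ℝ) / ((K : ℝ) + 1) := by positivity
      linarith
    exact (Nat.cast_le.2 (Nat.floor_le_floor h21)).trans (Nat.floor_le (mul_nonneg hth.le hJr))
  push_cast
  have h24 : (tht j + (σb + h')) * (J : ℝ) ≤ (1 - x) * J :=
    mul_le_mul_of_nonneg_right (by linarith) hJr
  have e1 : (tht j + (σb + h')) * (J : ℝ) = tht j * J + (σb + h') * J := by ring
  linarith

end Pool.SHE33
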