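import Pool.Agent.H33.SHV.Sup

/-!
# A thin target is thin for the second package

`thin_sh`: if the target is thin at a window of the first package, it is not steep at the window of the
second one.
-/

set_option autoImplicit false

namespace Pool.SHV33

open MeasureTheory Set Filter Topology
open Pool.Agent.H49.Ent Pool.Agent.H32.Dense Pool.STK Pool.KA Pool.KSAT Pool.K2S Pool.PB
open Pool.GEN Pool.S6C Pool.STAT Pool.CHT Pool.GRW Pool.ONE Pool.STA Pool.PKG Pool.ASM
open Pool.LEV (Law)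
open Pool.TOP (TopS)
open Pool.STR (ThinAt SteepAt StaAt)
open Pool.SHE3 (zs DiaW OffS zs_le zs_sub zs_pos zs_le_one)

/-- **A thin target is not steep** for the second package. -/
theorem thin_sh {b : ℝ} (hb1 : b < 1) {P Pb T Tb : ℝ → ℝ → ℝ} {g : ℝ} (hbg : b < g) (g1 : g < 1)
    (hcP : ContinuousAt (dgP P) g) (hg0 : 0 < g)
    (hle : ∀ w, 0 < w → w ≤ 1 → T w w ≤ P w w)
    (hleb : ∀ a w, 0 < w → w ≤ a → a ≤ 1 → Tb a w ≤ Pb a w) (hO : OffS b P Pb g)
    (hTb : Tb (zs b g) (zs b g) = zs b (P g g)) (ht : ThinAt P T g)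
    (hs : SteepAt 2 Tb (zs b g)) : False := by
  obtain ⟨δ, hδ, hO⟩ := hO
  obtain ⟨r₁, hr₁, h1⟩ := ht (1 / 4) (by norm_num)
  obtain ⟨r₂, hr₂, h2⟩ := hs (1 / 4) (by norm_num)
  obtain ⟨q, hq⟩ : ∃ q, q = min (min r₁ δ) (min (r₂ * (1 - b)) (1 - g)) / 4 := ⟨_, rfl⟩
  have hb : 0 < 1 - b := by linarith
  have hm : 0 < min (min r₁ δ) (min (r₂ * (1 - b)) (1 - g)) :=
    lt_min (lt_min hr₁ hδ) (lt_min (mul_pos hr₂ hb) (by linarith))
  have m1 := min_le_left (min r₁ δ) (min (r₂ * (1 - b)) (1 - g))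
  have m2 := min_le_right (min r₁ δ) (min (r₂ * (1 - b)) (1 - g))
  have hq0 : 0 < q := by rw [hq]; linarith
  have hq1 : q < r₁ := by rw [hq]; linarith [min_le_left r₁ δ]
  have hqδ : 4 * q ≤ δ := by rw [hq]; linarith [min_le_right r₁ δ]
  have hq2 : q < r₂ * (1 - b) := by
    rw [hq]
    linarith [min_le_left (r₂ * (1 - b)) (1 - g)]
  have hq3 : 4 * q ≤ 1 - g := by
    rw [hq]
    linarith [min_le_right (r₂ * (1 - b)) (1 - g)]
  obtain ⟨δ₁, hδ₁, hc⟩ := Metric.eventually_nhds_iff.1 (hcP.eventually (gt_mem_nhds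
    (show dgP P g < dgP P g + q / 8 by linarith)))
  obtain ⟨τ, hτ⟩ : ∃ τ, τ = min q δ₁ / 4 := ⟨_, rfl⟩
  have hm' : 0 < min q δ₁ := lt_min hq0 hδ₁
  have hτ0 : 0 < τ := by rw [hτ]; linarith
  have hτq : 4 * τ ≤ q := by rw [hτ]; linarith [min_le_left q δ₁]
  have hτδ : 4 * τ ≤ δ₁ := by rw [hτ]; linarith [min_le_right q δ₁]
  have hqb : 0 < q / (1 - b) := div_pos hq0 hb
  have e1 := zs_sub b (g + q) g
  rw [show g + q - g = q by ring] at e1
  have h3 := h2 (q / (1 - b)) hqb (by rwa [div_lt_iff₀ hb]) (zs b (g + q)) (zs b g)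
    (by linarith) ((zs_le hb1).2 (by linarith)) (by linarith)
  have h4 := hleb (zs b (g + q)) (zs b g) ((zs_pos hb1).2 hbg) ((zs_le hb1).2 (by linarith))
    ((zs_le_one hb1).2 (by linarith))
  have h5 := hO (g + q) (g + q + τ) g (g + τ) (by linarith) (by linarith) (by linarith)
    (by linarith) (by linarith)
  have h6 := h1 q hq0 hq1 (g + q + τ) (g + τ) (by linarith) (by linarith) (by linarith)
  have h7 := hle (g + τ) (by linarith) (by linarith)
  have h9 : P (g + τ) (g + τ) < P g g + q / 8 := by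
    have h10 := @hc (g + τ) (by
      rw [Real.dist_eq, add_sub_cancel_left, abs_of_pos hτ0]
      linarith)
    rwa [dgP_eq P (by linarith) (by linarith), dgP_eq P (by linarith) (by linarith)] at h10
  have h10 : zs b (P g g) + 2 * (q / (1 - b)) - 1 / 4 * (q / (1 - b)) ≤
      zs b (P (g + q + τ) (g + τ)) := by
    rw [hTb, e1] at h3
    linarith
  have h11 : (2 * q - 1 / 4 * q) / (1 - b) ≤ zs b (P (g + q + τ) (g + τ)) - zs b (P g g) := by
    rw [sub_div, mul_div_assoc, mul_div_assoc]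
    linarith
  rw [zs_sub, div_le_div_iff_of_pos_right hb] at h11
  linarith

end Pool.SHV33
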