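import Pool.Agent.H33.SHV.Ofc

/-!
# The transfer of thin and static levels

`thin_sta`: a thin level with a slope more than one is not static for the second package. `sta_rev`: a
static level is static for the second package.
-/

set_option autoImplicit false

namespace Pool.SHV33

open MeasureTheory Set Filter Topology
open Pool.LEV (Law)
open Pool.STR (ThinAt SteepAt StaAt)
open Pool.SHE3 (zs OffW OffS zs_le zs_sub zs_pos zs_le_one)
open Pool.SHE33 (zs_mul)

/-- The first order of a function near a point. -/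
theorem fo_near {f : ℝ → ℝ} {s g : ℝ} (h : HasDerivAt f s g) {e : ℝ} (he : 0 < e) :
    ∃ δ : ℝ, 0 < δ ∧ ∀ x, |x - g| < δ → |f x - f g - (x - g) * s| ≤ e * |x - g| := by
  obtain ⟨δ, hδ, h1⟩ := Metric.eventually_nhds_iff.1 ((hasDerivAt_iff_isLittleO.1 h).bound he)
  refine ⟨δ, hδ, fun x hx => ?_⟩
  have h2 := @h1 x (by rwa [Real.dist_eq])
  rwa [Real.norm_eq_abs, Real.norm_eq_abs, smul_eq_mul] at h2

/-- **A thin level with a slope more than one is not static** for the second package. -/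
theorem thin_sta {b : ℝ} (hb1 : b < 1) {P Pb T : ℝ → ℝ → ℝ} {g s t : ℝ} (g1 : g < 1)
    (hO : OffS b P Pb g) (hT : T g g = P g g) (hd : HasDerivAt (fun a => T a a) t g)
    (hdb : HasDerivAt (fun a => Pb a a) s (zs b g))
    (hv : Pb (zs b g) (zs b g) = zs b (P g g)) (hs : 1 < s) (ht : ThinAt P T g)
    (hst : StaAt Pb (zs b g)) : False := by
  have hb : 0 < 1 - b := by linarith
  obtain ⟨e, he⟩ : ∃ e, e = (s - 1) / 16 := ⟨_, rfl⟩
  have he0 : 0 < e := by rw [he]; linarith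
  have ht0 : 0 < 4 * (|t| + 1) := by positivity
  obtain ⟨κ, hκ⟩ : ∃ κ, κ = min (1 / 2) ((s - 1) / (4 * (|t| + 1))) := ⟨_, rfl⟩
  have hκ0 : 0 < κ := by
    rw [hκ]
    exact lt_min (by norm_num) (div_pos (by linarith) ht0)
  have hκ1 : κ ≤ 1 / 2 := by
    rw [hκ]
    exact min_le_left _ _
  have hκ2 : |t| * κ ≤ (s - 1) / 4 := by
    have h2 : κ ≤ (s - 1) / (4 * (|t| + 1)) := by
      rw [hκ]
      exact min_le_right _ _
    rw [le_div_iff₀ ht0] at h2
    have h3 : κ * (4 * (|t| + 1)) = 4 * (|t| * κ) + 4 * κ := by ring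
    linarith
  obtain ⟨δ, hδ, hO⟩ := hO
  obtain ⟨r₁, hr₁, h1⟩ := ht e he0
  obtain ⟨r₂, hr₂, h2⟩ := hst e he0
  obtain ⟨δ₁, hδ₁, h3⟩ := fo_near hd he0
  obtain ⟨δ₂, hδ₂, h4⟩ := fo_near hdb he0
  obtain ⟨q, hq⟩ : ∃ q, q = min (min r₁ δ) (min (min (r₂ * (1 - b)) (1 - g))
    (min δ₁ (δ₂ * (1 - b)))) / 4 := ⟨_, rfl⟩
  have hm : 0 < min (min r₁ δ) (min (min (r₂ * (1 - b)) (1 - g)) (min δ₁ (δ₂ * (1 - b)))) :=
    lt_min (lt_min hr₁ hδ) (lt_min (lt_min (mul_pos hr₂ hb) (by linarith))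
      (lt_min hδ₁ (mul_pos hδ₂ hb)))
  have m1 := min_le_left (min r₁ δ) (min (min (r₂ * (1 - b)) (1 - g)) (min δ₁ (δ₂ * (1 - b))))
  have m2 := min_le_right (min r₁ δ) (min (min (r₂ * (1 - b)) (1 - g)) (min δ₁ (δ₂ * (1 - b))))
  have m3 := min_le_left (min (r₂ * (1 - b)) (1 - g)) (min δ₁ (δ₂ * (1 - b)))
  have m4 := min_le_right (min (r₂ * (1 - b)) (1 - g)) (min δ₁ (δ₂ * (1 - b)))
  have hq0 : 0 < q := by rw [hq]; linarith
  have hq1 : 4 * q ≤ r₁ := by rw [hq]; linarith [min_le_left r₁ δ]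
  have hqδ : 4 * q ≤ δ := by rw [hq]; linarith [min_le_right r₁ δ]
  have hq2 : 4 * q ≤ r₂ * (1 - b) := by
    rw [hq]
    linarith [min_le_left (r₂ * (1 - b)) (1 - g)]
  have hq3 : 4 * q ≤ 1 - g := by
    rw [hq]
    linarith [min_le_right (r₂ * (1 - b)) (1 - g)]
  have hq4 : 4 * q ≤ δ₁ := by
    rw [hq]
    linarith [min_le_left δ₁ (δ₂ * (1 - b))]
  have hq5 : 4 * q ≤ δ₂ * (1 - b) := by
    rw [hq]
    linarith [min_le_right δ₁ (δ₂ * (1 - b))]
  obtain ⟨τ, hτ⟩ : ∃ τ, τ = κ * q := ⟨_, rfl⟩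
  have hτ0 : 0 < τ := by rw [hτ]; positivity
  have hτq : τ ≤ q / 2 := by
    rw [hτ]
    have := mul_le_mul_of_nonneg_right hκ1 hq0.le
    linarith
  have hsτ : τ * t ≤ (s - 1) / 4 * q := by
    calc τ * t ≤ τ * |t| := mul_le_mul_of_nonneg_left (le_abs_self _) hτ0.le
      _ = |t| * κ * q := by rw [hτ]; ring
      _ ≤ (s - 1) / 4 * q := mul_le_mul_of_nonneg_right hκ2 hq0.le
  -- the thin level
  have k1 := h1 q hq0 (by linarith) (g + q + τ) (g + τ) (by linarith) (by linarith) (by linarith)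
  have k3 := (abs_le.1 (h3 (g + τ) (by
    rw [add_sub_cancel_left, abs_of_pos hτ0]
    linarith))).2
  rw [add_sub_cancel_left, abs_of_pos hτ0] at k3
  -- the static level
  have hqb : 0 < q / (1 - b) := div_pos hq0 hb
  have e1 := zs_sub b (g + q) g
  rw [show g + q - g = q by ring] at e1
  have k4 := h2 (q / (1 - b)) hqb (by
    rw [div_lt_iff₀ hb]
    linarith) (zs b (g + q)) (zs b g) (by linarith) ((zs_le hb1).2 (by linarith)) (by linarith)
  have k5 := hO (g + q) (g + q + τ) g (g + τ) (by linarith) (by linarith) (by linarith)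
    (by linarith) (by linarith)
  have k6 := (abs_le.1 (h4 (zs b (g + q)) (by
    rw [e1, abs_of_pos hqb, div_lt_iff₀ hb]
    linarith))).1
  rw [e1, abs_of_pos hqb] at k6
  have k7 : (q * s - e * q - e * q) / (1 - b) ≤ zs b (P (g + q + τ) (g + τ)) - zs b (P g g) := by
    have e2 : (q * s - e * q - e * q) / (1 - b) =
        q / (1 - b) * s - e * (q / (1 - b)) - e * (q / (1 - b)) := by ring
    rw [e2]
    linarith
  rw [zs_sub, div_le_div_iff_of_pos_right hb] at k7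
  have h5 : e * τ ≤ e * q := mul_le_mul_of_nonneg_left (by linarith) he0.le
  have h6 : e * q = (s - 1) / 16 * q := by rw [he]
  have h7 : 0 < (s - 1) * q := mul_pos (by linarith) hq0
  linarith

/-- **A static level is static** for the second package. -/
theorem sta_rev {b : ℝ} (hb1 : b < 1) {P Pb : ℝ → ℝ → ℝ} {g s : ℝ} (hbg : b < g) (g1 : g < 1)
    (hlaw : Law Pb) (hO : OffW b P Pb g) (hd : HasDerivAt (fun a => P a a) s g)
    (hdb : HasDerivAt (fun a => Pb a a) s (zs b g))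
    (hv : Pb (zs b g) (zs b g) = zs b (P g g)) (h : StaAt P g) : StaAt Pb (zs b g) := by
  have hb : 0 < 1 - b := by linarith
  intro E hE
  obtain ⟨e, he⟩ : ∃ e, e = E / 40 := ⟨_, rfl⟩
  have he0 : 0 < e := by rw [he]; linarith
  have hs0 : 0 < 8 * (|s| + 1) := by positivity
  obtain ⟨κ, hκ⟩ : ∃ κ, κ = min (1 / 2) (E / (8 * (|s| + 1))) := ⟨_, rfl⟩
  have hκ0 : 0 < κ := by
    rw [hκ]
    exact lt_min (by norm_num) (div_pos hE hs0)
  have hκ1 : κ ≤ 1 / 2 := by
    rw [hκ]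
    exact min_le_left _ _
  have hκ2 : |s| * κ ≤ E / 8 := by
    have h2 : κ ≤ E / (8 * (|s| + 1)) := by
      rw [hκ]
      exact min_le_right _ _
    rw [le_div_iff₀ hs0] at h2
    have h3 : κ * (8 * (|s| + 1)) = 8 * (|s| * κ) + 8 * κ := by ring
    linarith
  obtain ⟨δ, hδ, hO⟩ := hO
  obtain ⟨r₂, hr₂, h2⟩ := h e he0
  obtain ⟨δ₁, hδ₁, h3⟩ := fo_near hd he0
  obtain ⟨δ₂, hδ₂, h4⟩ := fo_near hdb he0
  obtain ⟨q₀, hq₀⟩ : ∃ q, q = min (min r₂ δ) (min (min (g - b) (1 - g))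
    (min δ₁ (δ₂ * (1 - b)))) / 20 := ⟨_, rfl⟩
  have hm : 0 < min (min r₂ δ) (min (min (g - b) (1 - g)) (min δ₁ (δ₂ * (1 - b)))) :=
    lt_min (lt_min hr₂ hδ) (lt_min (lt_min (by linarith) (by linarith))
      (lt_min hδ₁ (mul_pos hδ₂ hb)))
  have m1 := min_le_left (min r₂ δ) (min (min (g - b) (1 - g)) (min δ₁ (δ₂ * (1 - b))))
  have m2 := min_le_right (min r₂ δ) (min (min (g - b) (1 - g)) (min δ₁ (δ₂ * (1 - b))))
  have m3 := min_le_left (min (g - b) (1 - g)) (min δ₁ (δ₂ * (1 - b)))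
  have m4 := min_le_right (min (g - b) (1 - g)) (min δ₁ (δ₂ * (1 - b)))
  refine ⟨q₀ / (1 - b), div_pos (by rw [hq₀]; linarith) hb, fun R hR hRq ζa ζw z1 z2 z3 => ?_⟩
  obtain ⟨q, hq⟩ : ∃ q, q = R * (1 - b) := ⟨_, rfl⟩
  have hq0 : 0 < q := by rw [hq]; positivity
  rw [lt_div_iff₀ hb, ← hq] at hRq
  have hq1 : 20 * q ≤ r₂ := by rw [hq₀] at hRq; linarith [min_le_left r₂ δ]
  have hqδ : 20 * q ≤ δ := by rw [hq₀] at hRq; linarith [min_le_right r₂ δ]
  have hq2 : 20 * q ≤ g - b := by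
    rw [hq₀] at hRq
    linarith [min_le_left (g - b) (1 - g)]
  have hq3 : 20 * q ≤ 1 - g := by
    rw [hq₀] at hRq
    linarith [min_le_right (g - b) (1 - g)]
  have hq4 : 20 * q ≤ δ₁ := by
    rw [hq₀] at hRq
    linarith [min_le_left δ₁ (δ₂ * (1 - b))]
  have hq5 : 20 * q ≤ δ₂ * (1 - b) := by
    rw [hq₀] at hRq
    linarith [min_le_right δ₁ (δ₂ * (1 - b))]
  obtain ⟨a, ha⟩ : ∃ a, a = b + ζa * (1 - b) := ⟨_, rfl⟩
  obtain ⟨w, hw⟩ : ∃ w, w = b + ζw * (1 - b) := ⟨_, rfl⟩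
  have hza : zs b a = ζa := by
    rw [ha]
    unfold Pool.SHE3.zs
    field_simp
    ring
  have hzw : zs b w = ζw := by
    rw [hw]
    unfold Pool.SHE3.zs
    field_simp
    ring
  have eg := zs_mul hb1 g
  have z1' : g - 8 * q ≤ w := by
    have := mul_le_mul_of_nonneg_right z1 hb.le
    rw [hw, hq]
    linarith
  have z2' : w ≤ a := by
    have := mul_le_mul_of_nonneg_right z2 hb.le
    rw [hw, ha]
    linarith
  have z3' : a ≤ g + 8 * q := by
    have := mul_le_mul_of_nonneg_right z3 hb.le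
    rw [ha, hq]
    linarith
  have hda : |ζa - zs b g| ≤ 8 * R := by
    rw [abs_le]
    constructor <;> linarith
  have hdw : |ζw - zs b g| ≤ 8 * R := by
    rw [abs_le]
    constructor <;> linarith
  have hRδ : 8 * R < δ₂ := by
    have h5 : 8 * R * (1 - b) < δ₂ * (1 - b) := by
      have : 8 * R * (1 - b) = 8 * q := by rw [hq]; ring
      linarith
    exact lt_of_mul_lt_mul_right h5 hb.le
  have k1 := (abs_le.1 (h4 ζa (by linarith))).2
  have k1' : e * |ζa - zs b g| ≤ e * (8 * R) := mul_le_mul_of_nonneg_left hda he0.le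
  have hER : 0 < E * R := mul_pos hE hR
  have heR : e * R = E / 40 * R := by rw [he]
  have hζw0 : 0 < ζw := by
    rw [← hzw]
    exact (zs_pos hb1).2 (by linarith)
  have hζa1 : ζa ≤ 1 := by
    rw [← hza]
    exact (zs_le_one hb1).2 (by linarith)
  rcases le_or_gt (ζa - ζw) (2 * (κ * R)) with haw | haw
  · have k2 := (abs_le.1 (h4 ζw (by linarith))).1
    have k2' : e * |ζw - zs b g| ≤ e * (8 * R) := mul_le_mul_of_nonneg_left hdw he0.le
    have k3 : Pb ζw ζw ≤ Pb ζa ζw := hlaw.mono_a ζw ζa ζw hζw0.le le_rfl z2 hζa1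
    have k4 : (ζa - ζw) * s ≤ 2 * (κ * R) * |s| := by
      calc (ζa - ζw) * s ≤ (ζa - ζw) * |s| :=
            mul_le_mul_of_nonneg_left (le_abs_self _) (by linarith)
        _ ≤ 2 * (κ * R) * |s| := mul_le_mul_of_nonneg_right haw (abs_nonneg _)
    have k5 : 2 * (κ * R) * |s| = 2 * (|s| * κ) * R := by ring
    have k6 := mul_le_mul_of_nonneg_right hκ2 hR.le
    have k7 : (ζa - zs b g) * s - (ζw - zs b g) * s = (ζa - ζw) * s := by ring
    linarith
  · obtain ⟨τ, hτ⟩ : ∃ τ, τ = κ * q := ⟨_, rfl⟩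
    have hτ0 : 0 < τ := by rw [hτ]; positivity
    have hτq : τ ≤ q / 2 := by
      rw [hτ]
      have := mul_le_mul_of_nonneg_right hκ1 hq0.le
      linarith
    have haw' : 2 * τ < a - w := by
      have := mul_lt_mul_of_pos_right haw hb
      have h5 : 2 * (κ * R) * (1 - b) = 2 * τ := by rw [hτ, hq]; ring
      rw [ha, hw]
      linarith
    have k2 := hO (a - τ) a (w - τ) w (by linarith) (by linarith) (by linarith) (by linarith)
      (by linarith)
    rw [hza, hzw] at k2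
    have k3 := h2 (2 * q) (by linarith) (by linarith) (a - τ) (w - τ) (by linarith)
      (by linarith) (by linarith)
    have hd1 : |a - τ - g| ≤ 9 * q := by
      rw [abs_le]
      constructor <;> linarith
    have k4 := (abs_le.1 (h3 (a - τ) (by linarith))).1
    have k4' : e * |a - τ - g| ≤ e * (9 * q) := mul_le_mul_of_nonneg_left hd1 he0.le
    -- the first package
    have k5 : P g g + (a - τ - g) * s - 11 * (e * q) ≤ P (a - τ) (w - τ) := by linarith
    have k6 : zs b (P g g + (a - τ - g) * s - 11 * (e * q)) ≤ Pb ζa ζw :=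
      ((zs_le hb1).2 k5).trans k2
    have e2 := zs_sub b (P g g + (a - τ - g) * s - 11 * (e * q)) (P g g)
    have e3 : (P g g + (a - τ - g) * s - 11 * (e * q) - P g g) / (1 - b) =
        (ζa - zs b g) * s - κ * R * s - 11 * (e * R) := by
      rw [← hza, zs_sub, hτ, hq]
      field_simp
      ring
    have k7 : κ * R * s ≤ E / 8 * R := by
      calc κ * R * s ≤ κ * R * |s| :=
            mul_le_mul_of_nonneg_left (le_abs_self _) (by positivity)
        _ = |s| * κ * R := by ring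
        _ ≤ E / 8 * R := mul_le_mul_of_nonneg_right hκ2 hR.le
    linarith

end Pool.SHV33
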