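import Pool.Agent.H33.SHV.Thn
import Pool.Agent.H3.SHE.Ts
import Pool.Agent.H56.ASM.Jt
import Pool.Agent.H3.D2G.C1e
import Pool.Agent.H54.SLW.Ts

/-!
# Void windows with a fast place 1, from the windows with the labels of the place 2 over the place 0

`VdA`: there are no windows of the kinds `κ`, the slopes with `Φ`, where the place 2 has its labels
over the place 0. `vdP_she`: then there are no such windows at all (`Pool.ASM.VdP`), if the place 1 is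
faster than the place 2: there is a second package behind an earlier window with the labels.
-/

set_option autoImplicit false

namespace Pool.SHV33

open MeasureTheory Set Filter Topology
open Pool.Agent.H49.Ent Pool.Agent.H32.Dense Pool.STK Pool.KA Pool.KSAT Pool.K2S Pool.PB
open Pool.GEN Pool.S6C Pool.STAT Pool.CHT Pool.GRW Pool.ONE Pool.STA Pool.PKG Pool.ASM
open Pool.LEV (Law)
open Pool.TOP (TopS)
open Pool.STR (ThinAt SteepAt StaAt)
open Pool.SWP (TwA)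
open Pool.SHE33
open Pool.SHE3 (zs ShN OffB OffS DiaW zs_le zs_sub zs_pos zs_le_one ae_zs zs_mono)

/-- **No windows of the kinds `κ` and the slopes with `Φ`** where the place 2 has its labels over the
place 0, for all packages. -/
def VdA (κ : ℕ → Kg) (Φ : (ℕ → ℝ) → Prop) : Prop :=
  ∀ (hn : 2 ≤ 4) (S : PCl 4) (P : ℝ → ℝ → ℝ) (r : ℝ → ℝ)
    (P' : ℕ → List (Fin 4) × Fin 4 → ℝ → ℝ → ℝ) (Λ : Finset (Fin 4) → Fin 4 → ℝ → ℝ → ℝ)
    (PB : ℕ → List (Fin 4) × Fin 4 → ℝ → ℝ → ℝ) (H : PkT hn S P r P' Λ PB) (hTop : TopS 4)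
    (hF : FZX (4 - 1)) (_ : ∀ k, 1 ≤ k → k < 4 → FZX k) (h : ℝ), 0 < h → h ≤ 1 → ∀ o : Od 4,
    ∀ᵐ g : ℝ, RwH H hTop hF h o g → Φ (SlL hn P P' o g) →
      (∀ l < 4, KgAt hn P P' PB o l g (κ l)) → TwA hn P P' Λ 1 o g → False

theorem VdA.mono {κ : ℕ → Kg} {Φ Φ' : (ℕ → ℝ) → Prop} (H : VdA κ Φ) (h : ∀ Sl, Φ' Sl → Φ Sl) :
    VdA κ Φ' := by
  intro hn S P r P' Λ PB Hp hTop hF hZ h' hh hh1 o
  filter_upwards [H hn S P r P' Λ PB Hp hTop hF hZ h' hh hh1 o] with g h1 R hS hk ht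
  exact h1 R (h _ hS) hk ht

/-- The void windows of all packages are void with the labels. -/
theorem VdA.of_p {κ : ℕ → Kg} {Φ : (ℕ → ℝ) → Prop} (H : VdP κ Φ) : VdA κ Φ := by
  intro hn S P r P' Λ PB Hp hTop hF hZ h' hh hh1 o
  filter_upwards [H hn S P r P' Λ PB Hp hTop hF hZ h' hh hh1 o] with g h1 R hS hk _
  exact h1 R hS hk

/-- **The slopes**: the place 0 and the place 2 have slope one, the place 1 and the target have larger
slopes. -/
structure SlV (Φ : (ℕ → ℝ) → Prop) : Prop where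
  s1 : ∀ Sl, Φ Sl → 1 < Sl 1
  s2 : ∀ Sl, Φ Sl → Sl 2 = 1
  s3 : ∀ Sl, Φ Sl → 1 < Sl 3
  cg : ∀ Sl Sl', (∀ l < 4, Sl l = Sl' l) → Φ Sl → Φ Sl'

variable {hn : 2 ≤ 4} {S Sb : PCl 4} {P Pb : ℝ → ℝ → ℝ} {r rb : ℝ → ℝ}
  {P' Pb' : ℕ → List (Fin 4) × Fin 4 → ℝ → ℝ → ℝ} {Λ Λb : Finset (Fin 4) → Fin 4 → ℝ → ℝ → ℝ}
  {PB PBb : ℕ → List (Fin 4) × Fin 4 → ℝ → ℝ → ℝ} {o : Od 4} {b : ℝ}

/-- Two of the four kinds. -/
theorem kg_cases {k₁ k₃ : Kg} {X : ℕ → Kg → Prop} (h0 : X 0 .one) (h1 : X 1 k₁) (h2 : X 2 .one)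
    (h3 : X 3 k₃) : ∀ l < 4, X l (kg4 .one k₁ .one k₃ l) := by
  intro l hl
  obtain rfl | rfl | rfl | rfl : l = 0 ∨ l = 1 ∨ l = 2 ∨ l = 3 := by omega
  · exact h0
  · exact h1
  · exact h2
  · exact h3

/-- **The labels of the second package** at a window. -/
theorem twa_sh {g : ℝ} (hb1 : b < 1) (g1 : g < 1)
    (hc : ContinuousAt (fun x => Λb ((Finset.range 1).image (cc hn o.1.1))
      (cc hn o.1.1 2) (zs b x) (zs b x)) g)
    (hV : ∀ w' ρ : ℝ, g < w' → w' < 1 → b < ρ → ρ < 1 → zs b (LvL hn P P' o 2 g g) ≤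
      Λb ((Finset.range 1).image (cc hn o.1.1)) (cc hn o.1.1 2) (zs b w') (zs b ρ))
    (hbg : b < g)
    (hl : LvL hn Pb Pb' o 2 (zs b g) (zs b g) = zs b (LvL hn P P' o 2 g g)) :
    TwA hn Pb Pb' Λb 1 o (zs b g) := by
  show LvL hn Pb Pb' o 2 (zs b g) (zs b g) ≤
    Λb ((Finset.range 1).image (cc hn o.1.1)) (cc hn o.1.1 2) (zs b g) (zs b g)
  rw [hl]
  refine ge_of_tendsto (hc.tendsto.mono_left (nhdsWithin_le_nhds (s := Set.Ioi g))) ?_
  filter_upwards [Ioo_mem_nhdsGT g1] with w hw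
  exact hV w w hw.1 hw.2 (hbg.trans hw.1) hw.2

/-- **The second package has the windows of the kinds** `one, thin / sta, one, thin`. -/
theorem kind_sh {h : ℝ} (hh : 0 ≤ h) (N : ShN hn o b P r P' Λ Pb rb Pb' Λb)
    (H : PkT hn S P r P' Λ PB) (Hb : PkT hn Sb Pb rb Pb' Λb PBb) (hTop : TopS 4)
    (hF : FZX (4 - 1))
    (hOf : ∀ᵐ g : ℝ, b < g → g ∈ Gs P r P' Λ o → OffB b P Pb g) {V : Set ℝ}
    (hV : ∀ w ∈ V, ∀ w' ρ : ℝ, w < w' → w' < 1 → b < ρ → ρ < 1 → zs b (LvL hn P P' o 2 w w) ≤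
      Λb ((Finset.range 1).image (cc hn o.1.1)) (cc hn o.1.1 2) (zs b w') (zs b ρ)) :
    ∀ᵐ g : ℝ, g ∈ V → b < g → RwH H hTop hF h o g →
      1 < SlL hn P P' o g 1 → SlL hn P P' o g 2 = 1 → 1 < SlL hn P P' o g 3 →
      KgAt hn P P' PB o 3 g .thin →
      RwH Hb hTop hF h o (zs b g) ∧ (∀ l < 4, SlL hn P P' o g l = SlL hn Pb Pb' o (zs b g) l) ∧
      ((∀ l < 4, KgAt hn Pb Pb' PBb o l (zs b g) (kg4 .one .thin .one .thin l)) ∨
        ∀ l < 4, KgAt hn Pb Pb' PBb o l (zs b g) (kg4 .one .sta .one .thin l)) ∧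
      TwA hn Pb Pb' Λb 1 o (zs b g) := by
  have hb1 := N.b1
  have hcq : ∀ᵐ g : ℝ, ContinuousAt (fun x => Λb ((Finset.range 1).image (cc hn o.1.1))
      (cc hn o.1.1 2) (zs b x) (zs b x)) g := by
    have h2 : Monotone fun x => Λb ((Finset.range 1).image (cc hn o.1.1)) (cc hn o.1.1 2)
        (zs b x) (zs b x) := fun x y h => Hb.lam.mono _ _ _ _ _ _ _ (Finset.Subset.refl _)
      (zs_mono hb1 h) (zs_mono hb1 h)
    filter_upwards [h2.countable_not_continuousAt.ae_notMem volume] with w hw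
    by_contra hcon
    exact hw hcon
  filter_upwards [N.gs H Hb hTop hF, N.der H Hb hTop hF, N.rwh H Hb hTop hF hh,
    ae_zs hb1 (kg_all Hb hTop hF), ae_zs hb1 (one_zero Hb hTop hF o),
    ae_zs hb1 (one_false Hb hTop hF), ae_zs hb1 ((Hb.nk hTop hF).derT_ae (Hb.tgs.law ()) o),
    (H.nk hTop hF).derT_ae (H.tgs.law ()) o, N.lv H Hb hTop hF, hcq, hOf, N.hP,
    N.hS, H.dia_all H.pble hTop hF] with g a1 a2 a3 a4 a5 a6 a7 a8 a9 a10 a11 a12 a13 a14
      hgV hbg R s1 s2 s3 k3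
  have hg : g ∈ Gs P r P' Λ o := R.rwd.mem
  have g0 := R.rwd.g0
  have g1 := R.rwd.g1
  have hgb := a1 hbg hg
  have Rb := a3 hbg R
  have hd := a2 hbg hg
  have hOB := a11 hbg hg
  have hsl : ∀ l < 4, SlL hn P P' o g l = SlL hn Pb Pb' o (zs b g) l := fun l hl =>
    (hd l (by omega)).symm
  have e3 : LvL hn P P' o 3 = P := lvL_last (hn := hn) (P := P) (P' := P') o
  have e3b : LvL hn Pb Pb' o 3 = Pb := lvL_last (hn := hn) (P := Pb) (P' := Pb') o
  have t3 : LvT hn PB o 3 = PT hn PB o := LvT_top o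
  have t3b : LvT hn PBb o 3 = PT hn PBb o := LvT_top o
  have c0 : KgAt hn Pb Pb' PBb o 0 (zs b g) .one := a5 hgb
  have c2 : KgAt hn Pb Pb' PBb o 2 (zs b g) .one := by
    have h1 := hsl 2 (by norm_num)
    rw [s2] at h1
    exact h1.symm
  have k3' : ThinAt P (PT hn PB o) g := by
    have h1 := k3.2
    rwa [e3, t3] at h1
  have hTg : PT hn PB o g g = P g g := (a8 hg g0 g1).1
  have hoff : OffS b P Pb g := by
    obtain ⟨δ, hδ, h1⟩ := hOB
    exact ⟨δ, hδ, fun a a' w w' k1 k2 k3 k4 k5 =>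
      (h1 a a' w w' k1 k2 (by linarith) (by linarith) k4 k5).2⟩
  have c3 : KgAt hn Pb Pb' PBb o 3 (zs b g) .thin := by
    obtain ⟨k, hk, hka⟩ := a4 o hgb 3 (by norm_num)
    cases k with
    | one =>
      have h5 : SlL hn Pb Pb' o (zs b g) 3 = 1 := hka
      rw [← hsl 3 (by norm_num)] at h5
      linarith
    | thin => exact hka
    | sta =>
      exfalso
      have h5 : StaAt Pb (zs b g) := by
        have h6 := hka.2
        rwa [e3b] at h6
      have h6 : StaAt P g := a13 hbg hg hgb h5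
      have h7 := (a14 o hg 3 le_rfl).1
      rw [e3] at h7
      have h8 := Pool.PKG.sta_thin_le hTg.symm h7 k3' h6
      have h9 : SlL hn P P' o g 3 = deriv (fun a => P a a) g := by
        show deriv (fun a => LvL hn P P' o 3 a a) g = _
        rw [e3]
      rw [h9] at s3
      linarith
    | stp =>
      exfalso
      have h5 : SteepAt 2 (PT hn PBb o) (zs b g) := by
        have h6 := hka.2
        rwa [t3b] at h6
      have z0 : 0 < zs b g := (zs_pos hb1).2 hbg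
      have z1 : zs b g < 1 := (Pool.SHE3.zs_lt_one hb1).2 g1
      refine thin_sh hb1 hbg g1 hg.2.2 g0 (fun w h1 h2 => H.le o w w h1 le_rfl h2)
        (fun a w h1 h2 h3 => Hb.le o a w h1 h2 h3) hoff ?_ k3' h5
      exact (show PT hn PBb o (zs b g) (zs b g) = Pb (zs b g) (zs b g) from
        (a7 hgb z0 z1).1).trans (N.hPg hbg hg (a12 hbg hg))
    | any => exact absurd rfl hk
  refine ⟨Rb, hsl, ?_, twa_sh hb1 g1 a10 (hV g hgV) hbg (a9 hbg hg 2 (by norm_num))⟩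
  obtain ⟨k, hk, hka⟩ := a4 o hgb 1 (by norm_num)
  cases k with
  | one =>
    have h5 : SlL hn Pb Pb' o (zs b g) 1 = 1 := hka
    rw [← hsl 1 (by norm_num)] at h5
    linarith
  | thin => exact Or.inl (kg_cases c0 hka c2 c3)
  | sta => exact Or.inr (kg_cases c0 hka c2 c3)
  | stp => exact (a6 o hgb c0 hka.1 hka.2).elim
  | any => exact absurd rfl hk

/-- **The windows are void**, from the windows with the labels of the place 2 over the place 0. -/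
theorem vdP_she (hi : ∀ k, 2 ≤ k → k < 4 → Ext0 k) {Φ : (ℕ → ℝ) → Prop} (hΦ : SlV Φ)
    (ht : VdA (kg4 .one .thin .one .thin) Φ)
    (hs : VdA (kg4 .one .sta .one .thin) fun Sl => 2 ≤ Sl 1 ∧ Φ Sl) (k : Kg) :
    VdP (kg4 .one k .one .thin) Φ := by
  intro hn S P r P' Λ PB H hTop hF hZ h hh hh1 o
  have hW : 3 ≤ 4 → Pool.TOP.RW (4 - 1) := fun _ => Pool.TOP.rw_all hZ
    (fun k k1 k2 => rowN_of_ext (hi k k1 k2)) 3 (by norm_num) (by norm_num)
  obtain ⟨b, hb, hg⟩ := win_ae H hTop hF o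
  obtain ⟨V, hV⟩ : ∃ V : ℕ → Set ℝ, V = fun i => {g | b i < g ∧ g < 1 ∧
    LvL hn P P' o 2 g g ≤ 1 ∧
    Pool.AT66.AtS S (cc hn o.1.1 0) (cc hn o.1.1 1) (cc hn o.1.1 2) (b i)
      (Λ {cc hn o.1.1 0, cc hn o.1.1 1} (cc hn o.1.1 2) (b i) (b i)) g (LvL hn P P' o 2 g g) ∧
    Pool.OWN17.Gdw Λ (cc hn o.1.1 0) (cc hn o.1.1 1) (cc hn o.1.1 2) (b i)} := ⟨_, rfl⟩
  have h1 : ∀ᵐ g : ℝ, ∀ i, g ∈ V i → b i < g → RwH H hTop hF h o g → Φ (SlL hn P P' o g) →
      KgAt hn P P' PB o 3 g .thin → False := by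
    refine ae_all_iff.2 fun i => ?_
    by_cases hne : (V i).Nonempty
    · have hGd : Pool.OWN17.Gdw Λ (cc hn o.1.1 0) (cc hn o.1.1 1) (cc hn o.1.1 2) (b i) := by
        obtain ⟨g₀, hg₀⟩ := hne
        rw [hV] at hg₀
        exact hg₀.2.2.2.2
      obtain ⟨Sb, Pb, rb, Pb', Λb, PBb, Ψ, Hb, hcl, N, hOf, h2⟩ := shp_set H hTop hZ hW o
        (hb i).1 (hb i).2 hGd hne fun g hg => by
          rw [hV] at hg
          exact ⟨hg.1, hg.2.1, hg.2.2.1, hg.2.2.2.1⟩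
      filter_upwards [kind_sh hh.le N H Hb hTop hF hOf h2,
        ae_zs N.b1 (ht hn Sb Pb rb Pb' Λb PBb Hb hTop hF hZ h hh hh1 o),
        ae_zs N.b1 (hs hn Sb Pb rb Pb' Λb PBb Hb hTop hF hZ h hh hh1 o)]
        with g a1 a2 a3 hgV hbg R hφ k3
      obtain ⟨Rb, hsl, hkd, htw⟩ := a1 hgV hbg R (hΦ.s1 _ hφ) (hΦ.s2 _ hφ) (hΦ.s3 _ hφ) k3
      have hφb := hΦ.cg _ _ hsl hφ
      rcases hkd with hkd | hkd
      · exact a2 Rb hφb hkd htw
      · exact a3 Rb ⟨(hkd 1 (by norm_num)).1, hφb⟩ hkd htw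
    · exact Eventually.of_forall fun g hg => absurd ⟨g, hg⟩ hne
  filter_upwards [h1, hg] with g a1 a2 R hφ hkd
  have s1 : 1 < deriv (fun a => LvL hn P P' o 1 a a) g := hΦ.s1 _ hφ
  have s2 : deriv (fun a => LvL hn P P' o 2 a a) g = 1 := hΦ.s2 _ hφ
  obtain ⟨i, h3, h4⟩ := a2 R.rwd.mem s1 (by rw [s2]; exact s1)
  refine a1 i ?_ h3 R hφ (hkd 3 (by norm_num))
  rw [hV]
  exact ⟨h3, h4⟩

/-- The numbers of the parts. -/
theorem slV_nm {R : ℝ → ℝ → Prop} : SlV (Nm2 1 2 R .thin) where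
  s1 _ h := h.sl
  s2 _ h := h.sj
  s3 _ h := h.s3
  cg Sl Sl' h hS := by
    have e0 := h 0 (by norm_num)
    have e1 := h 1 (by norm_num)
    have e2 := h 2 (by norm_num)
    have e3 := h 3 (by norm_num)
    exact ⟨e0 ▸ hS.s0, e2 ▸ hS.sj, e1 ▸ hS.sl, e3 ▸ hS.s3, by rw [← e1, ← e3]; exact hS.rel,
      fun h5 => by simp at h5, fun h5 => by simp at h5⟩

/-- **The parts at two contact coordinates**: the parts with a fast place 1 are only needed at the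
windows with the labels of the place 2 over the place 0. -/
theorem pTwo_she (hi : ∀ k, 2 ≤ k → k < 4 → Ext0 k) {R : ℝ → ℝ → Prop}
    (t2 : VdP (kg4 .one .one .thin .thin) (Nm2 2 1 R .thin))
    (s2 : VdP (kg4 .one .one .sta .thin) (Nm2 2 1 R .sta))
    (p2 : VdP (kg4 .one .one .stp .thin) (Nm2 2 1 R .stp))
    (t1 : VdA (kg4 .one .thin .one .thin) (Nm2 1 2 R .thin))
    (s1 : VdA (kg4 .one .sta .one .thin) (Nm2 1 2 R .sta)) : PTwo R := by
  have h1 : VdA (kg4 .one .sta .one .thin) (fun Sl => 2 ≤ Sl 1 ∧ Nm2 1 2 R .thin Sl) :=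
    s1.mono fun Sl h => ⟨h.2.s0, h.2.sj, h.2.sl, h.2.s3, h.2.rel, fun _ => h.1,
      fun h5 => by simp at h5⟩
  exact ⟨t2, s2, p2, vdP_she hi slV_nm t1 h1 .thin, (vdP_she hi slV_nm t1 h1 .sta).mono
    fun Sl h => ⟨h.s0, h.sj, h.sl, h.s3, h.rel, fun h5 => by simp at h5,
      fun h5 => by simp at h5⟩⟩

/-- **No tie, two contact coordinates**, the third coordinate of the base faster than the target. -/
theorem lTv_she (H : (∀ k, 2 ≤ k → k < 4 → Ext0 k) → PTwo fun a b => b < a) : LTvX FasL 4 :=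
  fun hi => lTv_of_k (H hi) hi

/-- **A tie, two contact coordinates.** -/
theorem lTp2_she (H : (∀ k, 2 ≤ k → k < 4 → Ext0 k) → PTwo fun a b => a = b) : LTp2X FasL 4 :=
  fun hi => lTp2_of_k (H hi) hi

/-- **Two contact coordinates, a third coordinate of the base slower than the target.** -/
theorem lVo2_she (H : (∀ k, 2 ≤ k → k < 4 → Ext0 k) → PTwo fun a b => a < b) : LNoX Vo2W 4 :=
  fun hi => lVo2_of_k (H hi) hi

end Pool.SHV33
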