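import Pool.Agent.H33.SHV.Trf
import Pool.Agent.H33.SHV.Vd
import Pool.Agent.H6.ASM.V0b

/-!
# Void windows with a thin place 1, from the windows with the labels of the place 2 over the place 0

`kind_sh1`: the second package has the windows of the kinds `one, thin, one, k₃` at the windows of the
first one, for the kinds `k₃` of a target which is not steep. `vdP_she1`: such windows are only needed
with the labels of the place 2 over the place 0. `lV0B_she`, `lV01_she`: for the theorems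
`Pool.ASM.LV0B`, `LV01` of a static target and of a target with slope one.
-/

set_option autoImplicit false

namespace Pool.SHV33

open MeasureTheory Set Filter Topology
open Pool.Agent.H49.Ent Pool.Agent.H32.Dense Pool.STK Pool.KA Pool.KSAT Pool.K2S Pool.PB
open Pool.GEN Pool.S6C Pool.STAT Pool.CHT Pool.GRW Pool.ONE Pool.STA Pool.PKG Pool.ASM
open Pool.LEV (Law)
open Pool.TOP (TopS)
open Pool.STR (ThinAt SteepAt StaAt)
open Pool.SWP (TwA)
open Pool.SHE33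
open Pool.SHE3 (zs ShN OffB OffS OffW DiaW zs_le zs_sub zs_pos zs_le_one ae_zs zs_mono)

variable {hn : 2 ≤ 4} {S Sb : PCl 4} {P Pb : ℝ → ℝ → ℝ} {r rb : ℝ → ℝ}
  {P' Pb' : ℕ → List (Fin 4) × Fin 4 → ℝ → ℝ → ℝ} {Λ Λb : Finset (Fin 4) → Fin 4 → ℝ → ℝ → ℝ}
  {PB PBb : ℕ → List (Fin 4) × Fin 4 → ℝ → ℝ → ℝ} {o : Od 4} {b : ℝ}

theorem offB_w {g : ℝ} (h : OffB b P Pb g) : OffW b P Pb g := by
  obtain ⟨δ, hδ, h1⟩ := h
  exact ⟨δ, hδ, fun a a' w w' k1 k2 k3 k4 k5 =>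
    (h1 a a' w w' k1 k2 (by linarith) (by linarith) k4 k5).1⟩

theorem offB_s {g : ℝ} (h : OffB b P Pb g) : OffS b P Pb g := by
  obtain ⟨δ, hδ, h1⟩ := h
  exact ⟨δ, hδ, fun a a' w w' k1 k2 k3 k4 k5 =>
    (h1 a a' w w' k1 k2 (by linarith) (by linarith) k4 k5).2⟩

/-- The four kinds. -/
theorem kg_casesx {k₀ k₁ k₂ k₃ : Kg} {X : ℕ → Kg → Prop} (h0 : X 0 k₀) (h1 : X 1 k₁)
    (h2 : X 2 k₂) (h3 : X 3 k₃) : ∀ l < 4, X l (kg4 k₀ k₁ k₂ k₃ l) := by
  intro l hl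
  obtain rfl | rfl | rfl | rfl : l = 0 ∨ l = 1 ∨ l = 2 ∨ l = 3 := by omega
  · exact h0
  · exact h1
  · exact h2
  · exact h3

/-- **The second package has the windows of the kinds** `one, thin, one` and a target which is not
steep. -/
theorem kind_sh1 {h : ℝ} (hh : 0 ≤ h) (N : ShN hn o b P r P' Λ Pb rb Pb' Λb)
    (H : PkT hn S P r P' Λ PB) (Hb : PkT hn Sb Pb rb Pb' Λb PBb) (hTop : TopS 4)
    (hF : FZX (4 - 1)) (hZ : ∀ k, 1 ≤ k → k < 4 → FZX k)
    (hW : 3 ≤ 4 → Pool.TOP.RW (4 - 1))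
    {Ψ : ℕ → ∀ (J : ℕ) (F : Fam 4 J) (_ : F.Ω → Prop), (F.Ω → ℝ) → Prop}
    (hch : ShCh S Sb b (cc_hu hn o) Ψ (cc hn o.1.1))
    (hOf : ∀ᵐ g : ℝ, b < g → g ∈ Gs P r P' Λ o → OffB b P Pb g) {V : Set ℝ}
    (hV : ∀ w ∈ V, ∀ w' ρ : ℝ, w < w' → w' < 1 → b < ρ → ρ < 1 → zs b (LvL hn P P' o 2 w w) ≤
      Λb ((Finset.range 1).image (cc hn o.1.1)) (cc hn o.1.1 2) (zs b w') (zs b ρ)) {k₃ : Kg}
    (hk₃ : k₃ = .one ∨ k₃ = .thin ∨ k₃ = .sta) :
    ∀ᵐ g : ℝ, g ∈ V → b < g → RwH H hTop hF h o g → SlL hn P P' o g 2 = 1 →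
      KgAt hn P P' PB o 1 g .thin → KgAt hn P P' PB o 3 g k₃ →
      RwH Hb hTop hF h o (zs b g) ∧ (∀ l < 4, SlL hn P P' o g l = SlL hn Pb Pb' o (zs b g) l) ∧
      (∀ l < 4, KgAt hn Pb Pb' PBb o l (zs b g) (kg4 .one .thin .one k₃ l)) ∧
      TwA hn Pb Pb' Λb 1 o (zs b g) := by
  have hb1 := N.b1
  have hcq : ∀ᵐ g : ℝ, ContinuousAt (fun x => Λb ((Finset.range 1).image (cc hn o.1.1))
      (cc hn o.1.1 2) (zs b x) (zs b x)) g := by
    have h2 : Monotone fun x => Λb ((Finset.range 1).image (cc hn o.1.1)) (cc hn o.1.1 2)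
        (zs b x) (zs b x) := fun x y h => Hb.lam.mono _ _ _ _ _ _ _ (Finset.Subset.refl _)
      (zs_mono hb1 h) (zs_mono hb1 h)
    filter_upwards [h2.countable_not_continuousAt.ae_notMem volume] with w hw
    by_contra hcon
    exact hw hcon
  filter_upwards [N.gs H Hb hTop hF, N.der H Hb hTop hF, N.rwh H Hb hTop hF hh,
    ae_zs hb1 (kg_all Hb hTop hF), ae_zs hb1 (one_zero Hb hTop hF o),
    ae_zs hb1 (one_false Hb hTop hF), ae_zs hb1 ((Hb.nk hTop hF).derT_ae (Hb.tgs.law ()) o),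
    (H.nk hTop hF).derT_ae (H.tgs.law ()) o, N.lv H Hb hTop hF, hcq, hOf, N.hP,
    N.hS, H.dia_all H.pble hTop hF, ae_zs hb1 (Hb.dia_all Hb.pble hTop hF),
    off1_ae N.toShN0 H Hb hTop hZ hW (q := cc hn o.1.1 2) (fun i hi h => by
      have := cc_inj' hn o.1.1 (by omega) (by omega) h
      omega) hch] with g a1 a2 a3 a4 a5 a6 a7 a8 a9 a10 a11 a12 a13 a14 a15 a16
      hgV hbg R s2 k1 k3
  have hg : g ∈ Gs P r P' Λ o := R.rwd.mem
  have g0 := R.rwd.g0
  have g1 := R.rwd.g1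
  have hgb := a1 hbg hg
  have Rb := a3 hbg R
  have hd := a2 hbg hg
  have hOB := a11 hbg hg
  have hsl : ∀ l < 4, SlL hn P P' o g l = SlL hn Pb Pb' o (zs b g) l := fun l hl =>
    (hd l (by omega)).symm
  have e3 : LvL hn P P' o 3 = P := lvL_last (hn := hn) (P := P) (P' := P') o
  have e3b : LvL hn Pb Pb' o 3 = Pb := lvL_last (hn := hn) (P := Pb) (P' := Pb') o
  have t3 : LvT hn PB o 3 = PT hn PB o := LvT_top o
  have t3b : LvT hn PBb o 3 = PT hn PBb o := LvT_top o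
  have s1 : 1 < SlL hn P P' o g 1 := k1.1
  have c0 : KgAt hn Pb Pb' PBb o 0 (zs b g) .one := a5 hgb
  have c2 : KgAt hn Pb Pb' PBb o 2 (zs b g) .one := by
    have h1 := hsl 2 (by norm_num)
    rw [s2] at h1
    exact h1.symm
  have hoff : OffS b P Pb g := offB_s hOB
  have hPv : Pb (zs b g) (zs b g) = zs b (P g g) := N.hPg hbg hg (a12 hbg hg)
  have c3 : KgAt hn Pb Pb' PBb o 3 (zs b g) k₃ := by
    rcases hk₃ with rfl | rfl | rfl
    · have h1 := hsl 3 (by norm_num)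
      have h2 : SlL hn P P' o g 3 = 1 := k3
      rw [h2] at h1
      exact h1.symm
    · have k3' : ThinAt P (PT hn PB o) g := by
        have h1 := k3.2
        rwa [e3, t3] at h1
      have s3 : 1 < SlL hn P P' o g 3 := k3.1
      have hTg : PT hn PB o g g = P g g := (a8 hg g0 g1).1
      obtain ⟨k, hk, hka⟩ := a4 o hgb 3 (by norm_num)
      cases k with
      | one =>
        have h5 : SlL hn Pb Pb' o (zs b g) 3 = 1 := hka
        rw [← hsl 3 (by norm_num)] at h5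
        linarith
      | thin => exact hka
      | sta =>
        exfalso
        have h5 : StaAt Pb (zs b g) := by
          have h6 := hka.2
          rwa [e3b] at h6
        have h6 : StaAt P g := a13 hbg hg hgb h5
        have h7 := (a14 o hg 3 le_rfl).1
        rw [e3] at h7
        have h8 := Pool.PKG.sta_thin_le hTg.symm h7 k3' h6
        have h9 : SlL hn P P' o g 3 = deriv (fun a => P a a) g := by
          show deriv (fun a => LvL hn P P' o 3 a a) g = _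
          rw [e3]
        rw [h9] at s3
        linarith
      | stp =>
        exfalso
        have h5 : SteepAt 2 (PT hn PBb o) (zs b g) := by
          have h6 := hka.2
          rwa [t3b] at h6
        have z0 : 0 < zs b g := (zs_pos hb1).2 hbg
        have z1 : zs b g < 1 := (Pool.SHE3.zs_lt_one hb1).2 g1
        refine thin_sh hb1 hbg g1 hg.2.2 g0 (fun w h1 h2 => H.le o w w h1 le_rfl h2)
          (fun a w h1 h2 h3 => Hb.le o a w h1 h2 h3) hoff ?_ k3' h5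
        exact (show PT hn PBb o (zs b g) (zs b g) = Pb (zs b g) (zs b g) from
          (a7 hgb z0 z1).1).trans hPv
      | any => exact absurd rfl hk
    · have h1 := hsl 3 (by norm_num)
      have h2 : 2 ≤ SlL hn P P' o g 3 := k3.1
      have h3 : StaAt P g := by
        have h4 := k3.2
        rwa [e3] at h4
      have hd3 : HasDerivAt (fun a => P a a) (deriv (fun a => P a a) g) g := by
        have h4 := (a14 o hg 3 le_rfl).1
        rw [e3] at h4
        exact h4.hasDerivAt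
      have hd3b : HasDerivAt (fun a => Pb a a) (deriv (fun a => P a a) g) (zs b g) := by
        have h4 := (a15 o hgb 3 le_rfl).1
        rw [e3b] at h4
        have h5 := h4.hasDerivAt
        have h6 := hd 3 le_rfl
        rw [e3, e3b] at h6
        rwa [h6] at h5
      refine ⟨by
        show 2 ≤ SlL hn Pb Pb' o (zs b g) 3
        rw [← h1]
        exact h2, ?_⟩
      rw [e3b]
      exact sta_rev hb1 hbg g1 (Hb.tgs.law ()) (offB_w hOB) hd3 hd3b hPv h3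
  refine ⟨Rb, hsl, kg_casesx c0 ?_ c2 c3, twa_sh hb1 g1 a10 (hV g hgV) hbg
    (a9 hbg hg 2 (by norm_num))⟩
  obtain ⟨k, hk, hka⟩ := a4 o hgb 1 (by norm_num)
  cases k with
  | one =>
    have h5 : SlL hn Pb Pb' o (zs b g) 1 = 1 := hka
    rw [← hsl 1 (by norm_num)] at h5
    linarith
  | thin => exact hka
  | sta =>
    exfalso
    have h1 := a14 o hg 1 (by norm_num)
    have h2 := (a15 o hgb 1 (by norm_num)).1.hasDerivAt
    rw [hd 1 (by norm_num)] at h2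
    exact thin_sta hb1 g1 (a16 hbg hg).off h1.2.2.symm h1.2.1.hasDerivAt h2
      (a9 hbg hg 1 (by norm_num)) s1 k1.2 hka.2
  | stp => exact (a6 o hgb c0 hka.1 hka.2).elim
  | any => exact absurd rfl hk

/-- **The slopes**: the place 1 has a larger slope than the place 2, which has slope one. -/
structure SlW (Φ : (ℕ → ℝ) → Prop) : Prop where
  s2 : ∀ Sl, Φ Sl → Sl 2 = 1
  cg : ∀ Sl Sl', (∀ l < 4, Sl l = Sl' l) → Φ Sl → Φ Sl'

/-- **The windows with a thin place 1 are void**, from the windows with the labels of the place 2 over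
the place 0. -/
theorem vdP_she1 (hi : ∀ k, 2 ≤ k → k < 4 → Ext0 k) {Φ : (ℕ → ℝ) → Prop} (hΦ : SlW Φ) {k₃ : Kg}
    (hk₃ : k₃ = .one ∨ k₃ = .thin ∨ k₃ = .sta) (ht : VdA (kg4 .one .thin .one k₃) Φ) :
    VdP (kg4 .one .thin .one k₃) Φ := by
  intro hn S P r P' Λ PB H hTop hF hZ h hh hh1 o
  have hW : 3 ≤ 4 → Pool.TOP.RW (4 - 1) := fun _ => Pool.TOP.rw_all hZ
    (fun k k1 k2 => rowN_of_ext (hi k k1 k2)) 3 (by norm_num) (by norm_num)
  obtain ⟨b, hb, hg⟩ := win_ae H hTop hF o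
  obtain ⟨V, hV⟩ : ∃ V : ℕ → Set ℝ, V = fun i => {g | b i < g ∧ g < 1 ∧
    LvL hn P P' o 2 g g ≤ 1 ∧
    Pool.AT66.AtS S (cc hn o.1.1 0) (cc hn o.1.1 1) (cc hn o.1.1 2) (b i)
      (Λ {cc hn o.1.1 0, cc hn o.1.1 1} (cc hn o.1.1 2) (b i) (b i)) g (LvL hn P P' o 2 g g) ∧
    Pool.OWN17.Gdw Λ (cc hn o.1.1 0) (cc hn o.1.1 1) (cc hn o.1.1 2) (b i)} := ⟨_, rfl⟩
  have h1 : ∀ᵐ g : ℝ, ∀ i, g ∈ V i → b i < g → RwH H hTop hF h o g → Φ (SlL hn P P' o g) →
      KgAt hn P P' PB o 1 g .thin → KgAt hn P P' PB o 3 g k₃ → False := by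
    refine ae_all_iff.2 fun i => ?_
    by_cases hne : (V i).Nonempty
    · have hGd : Pool.OWN17.Gdw Λ (cc hn o.1.1 0) (cc hn o.1.1 1) (cc hn o.1.1 2) (b i) := by
        obtain ⟨g₀, hg₀⟩ := hne
        rw [hV] at hg₀
        exact hg₀.2.2.2.2
      obtain ⟨Sb, Pb, rb, Pb', Λb, PBb, Ψ, Hb, hcl, hch, N, hOf, h2⟩ := shp_setc H hTop hZ hW o
        (hb i).1 (hb i).2 hGd hne fun g hg => by
          rw [hV] at hg
          exact ⟨hg.1, hg.2.1, hg.2.2.1, hg.2.2.2.1⟩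
      filter_upwards [kind_sh1 hh.le N H Hb hTop hF hZ hW hch hOf h2 hk₃,
        ae_zs N.b1 (ht hn Sb Pb rb Pb' Λb PBb Hb hTop hF hZ h hh hh1 o)]
        with g a1 a2 hgV hbg R hφ k1 k3
      obtain ⟨Rb, hsl, hkd, htw⟩ := a1 hgV hbg R (hΦ.s2 _ hφ) k1 k3
      exact a2 Rb (hΦ.cg _ _ hsl hφ) hkd htw
    · exact Eventually.of_forall fun g hg => absurd ⟨g, hg⟩ hne
  filter_upwards [h1, hg] with g a1 a2 R hφ hkd
  have k1 : KgAt hn P P' PB o 1 g .thin := hkd 1 (by norm_num)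
  have s1 : 1 < deriv (fun a => LvL hn P P' o 1 a a) g := k1.1
  have s2 : deriv (fun a => LvL hn P P' o 2 a a) g = 1 := hΦ.s2 _ hφ
  obtain ⟨i, h3, h4⟩ := a2 R.rwd.mem s1 (by rw [s2]; exact s1)
  refine a1 i ?_ h3 R hφ k1 (hkd 3 (by norm_num))
  rw [hV]
  exact ⟨h3, h4⟩

theorem slW_nbt : SlW NBt where
  s2 _ h := h.2.1
  cg Sl Sl' h hS := by
    have e0 := h 0 (by norm_num)
    have e1 := h 1 (by norm_num)
    have e2 := h 2 (by norm_num)
    have e3 := h 3 (by norm_num)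
    exact ⟨e0 ▸ hS.1, e2 ▸ hS.2.1, e1 ▸ hS.2.2.1, e3 ▸ hS.2.2.2⟩

theorem slW_m1t : SlW M1t where
  s2 _ h := h.2.1
  cg Sl Sl' h hS := by
    have e0 := h 0 (by norm_num)
    have e1 := h 1 (by norm_num)
    have e2 := h 2 (by norm_num)
    have e3 := h 3 (by norm_num)
    exact ⟨e0 ▸ hS.1, e2 ▸ hS.2.1, e1 ▸ hS.2.2.1, e3 ▸ hS.2.2.2⟩

end Pool.SHV33
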